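import Pool.Agent.N856.JL.Av2

/-!
# JT: all the patterns (inclusion-exclusion for natural densities)
-/

set_option autoImplicit false

open Filter Topology

namespace Pool.Agent.N856.JT

open Pool.Agent.N856.JL.Av (count HasDensity dens_congr)

open Classical in
lemma count_split (P Q R : ℕ → Prop) (X : ℕ) :
    count (fun m => P m ∧ Q m) X = count (fun m => P m ∧ (Q m ∧ R m)) X +
      count (fun m => P m ∧ (Q m ∧ ¬ R m)) X := by
  unfold count
  rw [← Finset.card_union_of_disjoint]
  · congr 1
    ext m
    simp only [Finset.mem_filter, Finset.mem_union]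
    by_cases h : R m <;> simp [h]
  · rw [Finset.disjoint_left]
    intro m h1 h2
    simp only [Finset.mem_filter] at h1 h2
    exact h2.2.2.2 h1.2.2.2

lemma dens_sub {P Q R : ℕ → Prop} {a b : ℝ} (h1 : HasDensity P Q a)
    (h2 : HasDensity P (fun m => Q m ∧ R m) b) : HasDensity P (fun m => Q m ∧ ¬ R m) (a - b) := by
  unfold HasDensity at *
  refine (h1.sub h2).congr fun X => ?_
  have h := count_split P Q R X
  rw [h]
  push_cast
  ring

lemma count_true (P : ℕ → Prop) (X : ℕ) : count (fun m => P m ∧ True) X = count P X := by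
  congr 1
  funext m
  simp

open Classical in
lemma count_pos {P : ℕ → Prop} {m X : ℕ} (h0 : 0 < m) (hm : P m) (hX : m ≤ X) : 0 < count P X := by
  unfold count
  refine Finset.card_pos.2 ⟨m, ?_⟩
  simp only [Finset.mem_filter, Finset.mem_Icc]
  exact ⟨⟨h0, hX⟩, hm⟩

lemma dens_true {P : ℕ → Prop} {m : ℕ} (h0 : 0 < m) (hm : P m) : HasDensity P (fun _ => True) 1 := by
  unfold HasDensity
  refine (tendsto_const_nhds (x := (1 : ℝ))).congr' ?_
  filter_upwards [eventually_ge_atTop m] with X hX
  rw [count_true, div_self]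
  exact_mod_cast (count_pos h0 hm hX).ne'

/-- all the patterns -/
theorem pattern {P : ℕ → Prop} {m : ℕ} (h0 : 0 < m) (hm : P m) {R : ℕ → ℕ → Prop} {η : ℝ}
    {T : Finset ℕ} (h : ∀ W : Finset ℕ, W ⊆ T → W.Nonempty →
      HasDensity P (fun n => ∀ c ∈ W, R c n) (η ^ W.card))
    (V : Finset ℕ) (hV : V ⊆ T) :
    HasDensity P (fun n => ∀ c ∈ T, (R c n ↔ c ∈ V)) (η ^ V.card * (1 - η) ^ (T \ V).card) := by
  have h' : ∀ W : Finset ℕ, W ⊆ T → HasDensity P (fun n => ∀ c ∈ W, R c n) (η ^ W.card) := by
    intro W hW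
    rcases W.eq_empty_or_nonempty with rfl | hne
    · rw [Finset.card_empty, pow_zero]
      exact dens_congr (fun _ => Iff.rfl) (fun n _ => by simp) (dens_true h0 hm)
    · exact h W hW hne
  have key : ∀ U : Finset ℕ, U ⊆ T → ∀ V : Finset ℕ, V ⊆ T → Disjoint U V →
      HasDensity P (fun n => (∀ c ∈ V, R c n) ∧ ∀ c ∈ U, ¬ R c n)
        (η ^ V.card * (1 - η) ^ U.card) := by
    intro U
    induction U using Finset.induction_on with
    | empty =>
      intro _ V hV _
      rw [Finset.card_empty, pow_zero, mul_one]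
      exact dens_congr (fun _ => Iff.rfl) (fun n _ => by simp) (h' V hV)
    | insert u U hu ih =>
      intro hU V hV hd
      have hUT : U ⊆ T := fun x hx => hU (Finset.mem_insert_of_mem hx)
      have huT : u ∈ T := hU (Finset.mem_insert_self _ _)
      have huV : u ∉ V := by
        rw [Finset.disjoint_left] at hd
        exact hd (Finset.mem_insert_self _ _)
      have hd1 : Disjoint U V := hd.mono_left (Finset.subset_insert _ _)
      have hd2 : Disjoint U (insert u V) := by
        rw [Finset.disjoint_insert_right]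
        exact ⟨hu, hd1⟩
      have h1 := ih hUT V hV hd1
      have h2 := ih hUT (insert u V) (Finset.insert_subset huT hV) hd2
      have h3 := dens_sub (R := fun n => R u n) h1 (dens_congr (fun _ => Iff.rfl) (fun n _ => by
        constructor
        · rintro ⟨g1, g2⟩
          exact ⟨⟨fun c hc => g1 c (Finset.mem_insert_of_mem hc), g2⟩,
            g1 u (Finset.mem_insert_self _ _)⟩
        · rintro ⟨⟨g1, g2⟩, g3⟩
          refine ⟨fun c hc => ?_, g2⟩
          rcases Finset.mem_insert.1 hc with rfl | hc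
          · exact g3
          · exact g1 c hc) h2)
      have e : η ^ V.card * (1 - η) ^ (insert u U).card =
          η ^ V.card * (1 - η) ^ U.card - η ^ (insert u V).card * (1 - η) ^ U.card := by
        rw [Finset.card_insert_of_notMem hu, Finset.card_insert_of_notMem huV]
        ring
      rw [e]
      refine dens_congr (fun _ => Iff.rfl) (fun n _ => ?_) h3
      constructor
      · rintro ⟨⟨g1, g2⟩, g3⟩
        refine ⟨g1, fun c hc => ?_⟩
        rcases Finset.mem_insert.1 hc with rfl | hc
        · exact g3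
        · exact g2 c hc
      · rintro ⟨g1, g2⟩
        exact ⟨⟨g1, fun c hc => g2 c (Finset.mem_insert_of_mem hc)⟩, g2 u (Finset.mem_insert_self _ _)⟩
  have h5 := key (T \ V) Finset.sdiff_subset V hV Finset.sdiff_disjoint
  refine dens_congr (fun _ => Iff.rfl) (fun n _ => ?_) h5
  constructor
  · rintro ⟨g1, g2⟩ c hc
    by_cases hcV : c ∈ V
    · exact ⟨fun _ => hcV, fun _ => g1 c hcV⟩
    · exact ⟨fun g => absurd g (g2 c (Finset.mem_sdiff.2 ⟨hc, hcV⟩)), fun g => absurd g hcV⟩
  · intro g
    refine ⟨fun c hc => (g c (hV hc)).2 hc, fun c hc hR => ?_⟩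
    obtain ⟨h6, h7⟩ := Finset.mem_sdiff.1 hc
    exact h7 ((g c h6).1 hR)

end Pool.Agent.N856.JT
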