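import Pool.Agent.N856.JT.Pat

/-!
# JT: the class of all the odd negative discriminants such that `3` is not inert and `5` is not split
-/

set_option autoImplicit false

open Filter Topology

namespace Pool.Agent.N856.JT

open Pool.Agent.N856.JL
open Pool.Agent.N856.JL.Av (count HasDensity dens_congr)
open Pool.Agent.N969.P15 (Qc)

/-- the squarefree `n ≡ 3 mod 4` such that `3` is not inert and `5` is not split in `ℚ(√-n)` -/
def TwO (n : ℕ) : Prop := Squarefree n ∧ n % 4 = 3 ∧ n % 3 ≠ 1 ∧ (n % 5 = 0 ∨ n % 5 = 2 ∨ n % 5 = 3)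

/-- the squarefree `d ≡ 1 mod 4` such that `3` and `5` split in `ℚ(√d)` -/
def DiO (d : ℕ) : Prop := Squarefree d ∧ d % 4 = 1 ∧ d % 3 = 1 ∧ (d % 5 = 1 ∨ d % 5 = 4)

/-! ### densities -/

open Classical in
lemma count_le_sub {P Q : ℕ → Prop} (X : ℕ) : count (fun m => P m ∧ Q m) X ≤ count P X := by
  unfold count
  refine Finset.card_le_card fun m hm => ?_
  simp only [Finset.mem_filter] at hm ⊢
  exact ⟨hm.1, hm.2.1⟩

lemma dens_iff {P Q : ℕ → Prop} {δ : ℝ} {m : ℕ} (h0 : 0 < m) (hm : P m) : HasDensity P Q δ ↔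
    ∀ ε : ℝ, 0 < ε → ∀ᶠ X : ℕ in atTop,
      |(count (fun m => P m ∧ Q m) X : ℝ) - δ * count P X| ≤ ε * count P X := by
  have hpos : ∀ X, m ≤ X → (0 : ℝ) < count P X := fun X hX => by
    exact_mod_cast count_pos h0 hm hX
  have e : ∀ X, m ≤ X → ∀ ε : ℝ, |(count (fun m => P m ∧ Q m) X : ℝ) / count P X - δ| ≤ ε ↔
      |(count (fun m => P m ∧ Q m) X : ℝ) - δ * count P X| ≤ ε * count P X := by
    intro X hX ε
    have h1 := hpos X hX
    rw [← div_le_iff₀ h1, ← abs_of_pos h1, ← abs_div, abs_of_pos h1, sub_div,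
      mul_div_cancel_right₀ _ h1.ne']
  unfold HasDensity
  rw [Metric.tendsto_atTop]
  constructor
  · intro h ε hε
    obtain ⟨N, hN⟩ := h ε hε
    filter_upwards [eventually_ge_atTop N, eventually_ge_atTop m] with X h1 h2
    have h3 := hN X h1
    rw [Real.dist_eq] at h3
    exact (e X h2 ε).1 h3.le
  · intro h ε hε
    obtain ⟨N, hN⟩ := eventually_atTop.1 (h (ε / 2) (by linarith))
    refine ⟨max N m, fun X hX => ?_⟩
    rw [Real.dist_eq]
    have := (e X (le_trans (le_max_right _ _) hX) (ε / 2)).2 (hN X (le_trans (le_max_left _ _) hX))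
    linarith

open Classical in
lemma count_or {P P' : ℕ → Prop} (hd : ∀ m, P m → ¬ P' m) (X : ℕ) :
    count (fun m => P m ∨ P' m) X = count P X + count P' X := by
  unfold count
  rw [← Finset.card_union_of_disjoint]
  · congr 1
    ext m
    simp only [Finset.mem_filter, Finset.mem_union]
    tauto
  · rw [Finset.disjoint_left]
    intro m h1 h2
    simp only [Finset.mem_filter] at h1 h2
    exact hd m h1.2 h2.2

/-- union of two disjoint classes -/
lemma dens_or {P P' Q : ℕ → Prop} {δ : ℝ} {m m' : ℕ} (h0 : 0 < m) (hm : P m) (h0' : 0 < m')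
    (hm' : P' m') (hd : ∀ m, P m → ¬ P' m) (h : HasDensity P Q δ) (h' : HasDensity P' Q δ) :
    HasDensity (fun m => P m ∨ P' m) Q δ := by
  rw [dens_iff h0 hm] at h
  rw [dens_iff h0' hm'] at h'
  refine (dens_iff (P := fun m => P m ∨ P' m) h0 (Or.inl hm)).2 fun ε hε => ?_
  filter_upwards [h ε hε, h' ε hε] with X h1 h2
  have e1 := count_or hd X
  have e2 : count (fun m => (P m ∨ P' m) ∧ Q m) X =
      count (fun m => P m ∧ Q m) X + count (fun m => P' m ∧ Q m) X := by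
    rw [← count_or (fun m h3 h4 => hd m h3.1 h4.1) X]
    congr 1
    funext m
    exact propext or_and_right
  rw [e1, e2]
  push_cast
  have := abs_add_le ((count (fun m => P m ∧ Q m) X : ℝ) - δ * count P X)
    ((count (fun m => P' m ∧ Q m) X : ℝ) - δ * count P' X)
  calc _ = |((count (fun m => P m ∧ Q m) X : ℝ) - δ * count P X) +
        ((count (fun m => P' m ∧ Q m) X : ℝ) - δ * count P' X)| := by congr 1; ring
    _ ≤ _ := this
    _ ≤ ε * count P X + ε * count P' X := add_le_add h1 h2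
    _ = _ := by ring

open Classical in
lemma count_mul {P : ℕ → Prop} {g : ℕ} (hg : 0 < g) (X : ℕ) :
    count (fun n => ∃ m, n = g * m ∧ P m) X = count P (X / g) := by
  unfold count
  refine (Finset.card_bij (fun m _ => g * m) ?_ ?_ ?_).symm
  · intro m hm
    simp only [Finset.mem_filter, Finset.mem_Icc] at hm ⊢
    obtain ⟨⟨h1, h2⟩, h3⟩ := hm
    have h4 : m * g ≤ X := (Nat.le_div_iff_mul_le hg).1 h2
    exact ⟨⟨Nat.mul_pos hg h1, by rwa [mul_comm]⟩, m, rfl, h3⟩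
  · intro a _ b _ h
    exact Nat.eq_of_mul_eq_mul_left hg h
  · intro n hn
    simp only [Finset.mem_filter, Finset.mem_Icc] at hn
    obtain ⟨⟨h1, h2⟩, m, rfl, h3⟩ := hn
    refine ⟨m, ?_, rfl⟩
    simp only [Finset.mem_filter, Finset.mem_Icc]
    exact ⟨⟨Nat.pos_of_mul_pos_left h1 |> fun h => by
      rcases Nat.eq_zero_or_pos m with rfl | h
      · simp at h1
      · exact h, (Nat.le_div_iff_mul_le hg).2 (by rwa [mul_comm])⟩, h3⟩

/-- a class multiplied by a number -/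
lemma dens_mul {P Q : ℕ → Prop} {δ : ℝ} {g : ℕ} (hg : 0 < g)
    (h : HasDensity P (fun m => Q (g * m)) δ) : HasDensity (fun n => ∃ m, n = g * m ∧ P m) Q δ := by
  unfold HasDensity at *
  have ht : Tendsto (fun X : ℕ => X / g) atTop atTop := Nat.tendsto_div_const_atTop hg.ne'
  refine (h.comp ht).congr fun X => ?_
  have e : (fun n => (∃ m, n = g * m ∧ P m) ∧ Q n) = fun n => ∃ m, n = g * m ∧ (P m ∧ Q (g * m)) := by
    funext n
    refine propext ⟨?_, ?_⟩
    · rintro ⟨⟨m, rfl, h1⟩, h2⟩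
      exact ⟨m, rfl, h1, h2⟩
    · rintro ⟨m, rfl, h1, h2⟩
      exact ⟨⟨m, rfl, h1⟩, h2⟩
  rw [e, count_mul hg, count_mul hg]
  rfl

/-! ### the classes -/

/-- the residues modulo `120` of the cofactors -/
def Kg (g : ℕ) : Finset ℕ := (Finset.range 120).filter fun a => a.Coprime 120 ∧ g * a % 4 = 3 ∧
  g * a % 3 ≠ 1 ∧ (g * a % 5 = 0 ∨ g * a % 5 = 2 ∨ g * a % 5 = 3)

/-- the part of the class with `gcd(n, 15) = g` -/
def TwG (g n : ℕ) : Prop := ∃ m, n = g * m ∧ (Squarefree m ∧ m % 120 ∈ Kg g)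

lemma cop120 (m : ℕ) : (m % 120).Coprime 120 ↔ m % 2 = 1 ∧ m % 3 ≠ 0 ∧ m % 5 ≠ 0 := by
  have h : ∀ a < 120, (a.Coprime 120 ↔ a % 2 = 1 ∧ a % 3 ≠ 0 ∧ a % 5 ≠ 0) := by decide
  rw [h _ (Nat.mod_lt _ (by norm_num))]
  omega

lemma mem_Kg {g m : ℕ} : m % 120 ∈ Kg g ↔ (m % 2 = 1 ∧ m % 3 ≠ 0 ∧ m % 5 ≠ 0) ∧ g * m % 4 = 3 ∧
    g * m % 3 ≠ 1 ∧ (g * m % 5 = 0 ∨ g * m % 5 = 2 ∨ g * m % 5 = 3) := by
  unfold Kg
  rw [Finset.mem_filter, Finset.mem_range, cop120]
  have h4 : g * (m % 120) % 4 = g * m % 4 := by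
    rw [Nat.mul_mod, Nat.mod_mod_of_dvd m (by norm_num : 4 ∣ 120), ← Nat.mul_mod]
  have h3 : g * (m % 120) % 3 = g * m % 3 := by
    rw [Nat.mul_mod, Nat.mod_mod_of_dvd m (by norm_num : 3 ∣ 120), ← Nat.mul_mod]
  have h5 : g * (m % 120) % 5 = g * m % 5 := by
    rw [Nat.mul_mod, Nat.mod_mod_of_dvd m (by norm_num : 5 ∣ 120), ← Nat.mul_mod]
  rw [h4, h3, h5]
  constructor
  · rintro ⟨-, h⟩
    exact h
  · exact fun h => ⟨Nat.mod_lt _ (by norm_num), h⟩

lemma sq_of {p m : ℕ} (hp : p.Prime) (hm : Squarefree m) (h : m % p ≠ 0) : Squarefree (p * m) := by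
  refine (Nat.squarefree_mul ((Nat.Prime.coprime_iff_not_dvd hp).2 fun hd => h ?_)).2
    ⟨hp.prime.squarefree, hm⟩
  exact Nat.mod_eq_zero_of_dvd hd

lemma not_sq {p m : ℕ} (hp : 1 < p) (h : Squarefree (p * m)) : m % p ≠ 0 := by
  intro h0
  obtain ⟨k, rfl⟩ := Nat.dvd_of_mod_eq_zero h0
  have := h p ⟨k, by ring⟩
  rw [Nat.isUnit_iff] at this
  omega

lemma two_iff_parts (n : ℕ) : TwO n ↔ ((TwG 1 n ∨ TwG 3 n) ∨ (TwG 5 n ∨ TwG 15 n)) := by
  unfold TwO TwG
  simp only [mem_Kg]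
  constructor
  · rintro ⟨hs, h4, h3, h5⟩
    by_cases c3 : n % 3 = 0
    · obtain ⟨m, rfl⟩ := Nat.dvd_of_mod_eq_zero c3
      have g3 := not_sq (by norm_num) hs
      have hsm : Squarefree m := hs.squarefree_of_dvd (Dvd.intro_left _ rfl)
      by_cases c5 : m % 5 = 0
      · obtain ⟨k, rfl⟩ := Nat.dvd_of_mod_eq_zero c5
        have g5 := not_sq (by norm_num) hsm
        refine Or.inr (Or.inr ⟨k, by ring, hsm.squarefree_of_dvd (Dvd.intro_left _ rfl), ?_⟩)
        omega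
      · exact Or.inl (Or.inr ⟨m, rfl, hsm, by omega⟩)
    · by_cases c5 : n % 5 = 0
      · obtain ⟨k, rfl⟩ := Nat.dvd_of_mod_eq_zero c5
        have g5 := not_sq (by norm_num) hs
        refine Or.inr (Or.inl ⟨k, rfl, hs.squarefree_of_dvd (Dvd.intro_left _ rfl), ?_⟩)
        omega
      · exact Or.inl (Or.inl ⟨n, by ring, hs, by omega⟩)
  · rintro ((⟨m, rfl, hs, h⟩ | ⟨m, rfl, hs, h⟩) | (⟨m, rfl, hs, h⟩ | ⟨m, rfl, hs, h⟩))
    · exact ⟨by rwa [one_mul], h.2⟩
    · exact ⟨sq_of (by norm_num) hs h.1.2.1, h.2⟩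
    · exact ⟨sq_of (by norm_num) hs h.1.2.2, h.2⟩
    · refine ⟨?_, h.2⟩
      have h5 := sq_of (p := 5) (by norm_num) hs h.1.2.2
      have h3 := sq_of (p := 3) (by norm_num) h5 (by have := h.1.2.1; omega)
      rwa [← mul_assoc] at h3

lemma TwG_mod {g n : ℕ} (hg : g ∣ 15) (h : TwG g n) : n.gcd 15 = g := by
  obtain ⟨m, rfl, -, h⟩ := h
  rw [mem_Kg] at h
  have hc : m.Coprime 15 := by
    have h1 : m.Coprime 3 := ((Nat.Prime.coprime_iff_not_dvd (by norm_num)).2 fun hd =>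
      h.1.2.1 (Nat.mod_eq_zero_of_dvd hd)).symm
    have h2 : m.Coprime 5 := ((Nat.Prime.coprime_iff_not_dvd (by norm_num)).2 fun hd =>
      h.1.2.2 (Nat.mod_eq_zero_of_dvd hd)).symm
    exact (Nat.Coprime.mul_right h1 h2 : m.Coprime (3 * 5))
  rw [Nat.Coprime.gcd_mul_right_cancel g hc]
  exact Nat.gcd_eq_left hg

/-- the law for the class `TwO` and fixed elements of `DiO` -/
theorem law_TwO {W : Finset ℕ} (hW : W.Nonempty) (hc : ∀ c ∈ W, DiO c) :
    HasDensity TwO (fun n => ∀ c ∈ W, Qc (sfp (c * n))) (Pool.Agent.N916.GB.eta ^ W.card) := by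
  obtain ⟨c0, hc0⟩ := hW
  have : Nonempty W := ⟨⟨c0, hc0⟩⟩
  have part : ∀ g : ℕ, g % 2 = 1 → g ∣ 15 → Squarefree g → (Kg g).Nonempty →
      HasDensity (TwG g) (fun n => ∀ c ∈ W, Qc (sfp (c * n)))
        (Pool.Agent.N916.GB.eta ^ W.card) := by
    intro g g2 g15 gs gne
    have hg0 : 0 < g := Nat.pos_of_ne_zero gs.ne_zero
    have h := Pool.Agent.N856.JL.Av.law (I := W) (fun s => g * (s : ℕ))
      (fun s t h => Subtype.ext (Nat.eq_of_mul_eq_mul_left hg0 h))
      (fun s => ⟨?_, ?_⟩) (Kg g) gne (fun a ha => ?_)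
    · rw [Fintype.card_coe] at h
      refine dens_mul (P := fun m => Squarefree m ∧ m % 120 ∈ Kg g) hg0 ?_
      refine dens_congr (fun _ => Iff.rfl) (fun m _ => ?_) h
      rw [Subtype.forall]
      refine forall_congr' fun c => forall_congr' fun hcW => ?_
      have e : g * c * m = c * (g * m) := by ring
      show Qc (sfp (g * c * m)) ↔ _
      rw [e]
    · refine (Nat.squarefree_mul ?_).2 ⟨gs, (hc _ s.2).1⟩
      obtain ⟨-, k1, k2, k3⟩ := hc _ s.2
      have h1 : (s : ℕ).Coprime 3 := ((Nat.Prime.coprime_iff_not_dvd (by norm_num)).2 fun hd => by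
        omega).symm
      have h2 : (s : ℕ).Coprime 5 := ((Nat.Prime.coprime_iff_not_dvd (by norm_num)).2 fun hd => by
        omega).symm
      have h3 : (s : ℕ).Coprime (3 * 5) := Nat.Coprime.mul_right h1 h2
      exact (Nat.Coprime.coprime_dvd_right g15 h3).symm
    · have := (hc _ s.2).2.1
      rw [Nat.mul_mod, g2, show (s : ℕ) % 2 = 1 by omega]
    · have ha' := ha
      unfold Kg at ha'
      rw [Finset.mem_filter, Finset.mem_range] at ha'
      refine ⟨ha'.1, ha'.2.1, fun s => ?_⟩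
      have k1 := (hc _ s.2).2.1
      have e : a * (g * (s : ℕ)) = (g * a) * (s : ℕ) := by ring
      rw [e, Nat.mul_mod, ha'.2.2.1, k1]
  have ne1 : (Kg 1).Nonempty := ⟨23, by decide⟩
  have ne3 : (Kg 3).Nonempty := ⟨1, by decide⟩
  have ne5 : (Kg 5).Nonempty := ⟨7, by decide⟩
  have ne15 : (Kg 15).Nonempty := ⟨1, by decide⟩
  have w1 : TwG 1 23 := ⟨23, rfl, (by norm_num : Nat.Prime 23).prime.squarefree, by decide⟩
  have w3 : TwG 3 3 := ⟨1, rfl, squarefree_one, by decide⟩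
  have w5 : TwG 5 35 := ⟨7, rfl, (by norm_num : Nat.Prime 7).prime.squarefree, by decide⟩
  have w15 : TwG 15 15 := ⟨1, rfl, squarefree_one, by decide⟩
  have disj : ∀ g g' : ℕ, g ∣ 15 → g' ∣ 15 → g ≠ g' → ∀ m, TwG g m → ¬ TwG g' m := by
    intro g g' hg hg' hne m h1 h2
    exact hne ((TwG_mod hg h1).symm.trans (TwG_mod hg' h2))
  have d1 := part 1 (by norm_num) (by norm_num) squarefree_one ne1
  have d3 := part 3 (by norm_num) (by norm_num) (by norm_num : Nat.Prime 3).prime.squarefree ne3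
  have d5 := part 5 (by norm_num) (by norm_num) (by norm_num : Nat.Prime 5).prime.squarefree ne5
  have d15 := part 15 (by norm_num) (by norm_num) (by
    rw [show (15 : ℕ) = 3 * 5 by norm_num]
    exact (Nat.squarefree_mul (by norm_num)).2 ⟨(by norm_num : Nat.Prime 3).prime.squarefree,
      (by norm_num : Nat.Prime 5).prime.squarefree⟩) ne15
  have u1 := dens_or (by norm_num) w1 (by norm_num) w3
    (disj 1 3 (by norm_num) (by norm_num) (by norm_num)) d1 d3
  have u2 := dens_or (by norm_num) w5 (by norm_num) w15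
    (disj 5 15 (by norm_num) (by norm_num) (by norm_num)) d5 d15
  have u := dens_or (P := fun m => TwG 1 m ∨ TwG 3 m) (P' := fun m => TwG 5 m ∨ TwG 15 m)
    (m := 23) (m' := 35) (by norm_num) (Or.inl w1) (by norm_num) (Or.inl w5) (fun m h h' => by
      rcases h with h | h <;> rcases h' with h' | h' <;>
        exact absurd ((TwG_mod (by norm_num) h).symm.trans (TwG_mod (by norm_num) h'))
          (by norm_num)) u1 u2
  exact dens_congr (fun n => (two_iff_parts n).symm) (fun _ _ => Iff.rfl) u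

/-- the law for the class `DiO` and fixed elements of `TwO` -/
theorem law_DiO {W : Finset ℕ} (hW : W.Nonempty) (hc : ∀ c ∈ W, TwO c) :
    HasDensity DiO (fun n => ∀ c ∈ W, Qc (sfp (c * n))) (Pool.Agent.N916.GB.eta ^ W.card) := by
  obtain ⟨c0, hc0⟩ := hW
  have : Nonempty W := ⟨⟨c0, hc0⟩⟩
  have h := Pool.Agent.N856.JL.Av.law (I := W) (fun s => (s : ℕ)) Subtype.val_injective
    (fun s => ⟨(hc _ s.2).1, by have := (hc _ s.2).2.1; omega⟩) {1, 49, 61, 109} ⟨1, by simp⟩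
    (fun a ha => by
      have hcop : ∀ a ∈ ({1, 49, 61, 109} : Finset ℕ), a < 120 ∧ a.Coprime 120 ∧ a % 4 = 1 := by
        decide
      obtain ⟨g1, g2, g3⟩ := hcop a ha
      refine ⟨g1, g2, fun s => ?_⟩
      have g4 := (hc _ s.2).2.1
      rw [Nat.mul_mod, g3, g4])
  rw [Fintype.card_coe] at h
  refine dens_congr (fun n => ?_) (fun n hn => ?_) h
  · unfold DiO
    refine and_congr_right fun _ => ?_
    simp only [Finset.mem_insert, Finset.mem_singleton]
    omega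
  · rw [Subtype.forall]

end Pool.Agent.N856.JT
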