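import Pool.Agent.N856.JT.Cls
import Pool.Agent.N916.ND.Sqf

/-!
# JT: the natural densities of the classes among all the squarefree numbers
-/

set_option autoImplicit false

open Filter Topology Finset

namespace Pool.Agent.N856.JT

open Pool.Agent.N856.JL.Av (count HasDensity dens_congr)
open scoped ArithmeticFunction.Moebius
open Pool.Agent.N916.ND (ind_sqf)

/-- the number of the integers up to `n` in a class modulo `120` -/
theorem card_mod (n a : ℕ) (ha : 0 < a) (ha' : a < 120) (y : ℝ) (hy : n ≤ y) (hy' : y < n + 1) :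
    |(((Icc 1 n).filter fun k => k % 120 = a).card : ℝ) - y / 120| ≤ 1 := by
  have h1 : ∀ n : ℕ, ((Icc 1 n).filter fun k => k % 120 = a).card = (n + 120 - a) / 120 := by
    intro n
    induction n with
    | zero =>
      simp
      omega
    | succ n ih =>
      rw [← Finset.insert_Icc_right_eq_Icc_add_one (by omega : 1 ≤ n + 1), filter_insert]
      split_ifs with h
      · rw [card_insert_of_notMem (by simp), ih]
        omega
      · rw [ih]
        omega
  rw [h1 n]
  have h2 : 120 * ((n + 120 - a) / 120) ≤ n + 119 := by omega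
  have h3 : n ≤ 120 * ((n + 120 - a) / 120) + 118 := by omega
  have h2' : 120 * (((n + 120 - a) / 120 : ℕ) : ℝ) ≤ n + 119 := by exact_mod_cast h2
  have h3' : (n : ℝ) ≤ 120 * (((n + 120 - a) / 120 : ℕ) : ℝ) + 118 := by exact_mod_cast h3
  rw [abs_le]
  constructor <;> linarith

lemma sq_sq {s : ℕ} (hs : s.Coprime 120) : s ^ 2 * s ^ 2 % 120 = 1 := by
  have h : ∀ a < 120, a.Coprime 120 → a ^ 2 * a ^ 2 % 120 = 1 := by decide
  have h1 := h (s % 120) (Nat.mod_lt _ (by norm_num))
    ((Nat.ModEq.gcd_eq (Nat.mod_modEq s 120)).trans hs)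
  rw [← h1]
  simp [Nat.mul_mod, Nat.pow_mod]

/-- the multiples of a square in a class modulo `120` -/
theorem card_mod_sq (n a s : ℕ) (ha' : a < 120) (hac : a.Coprime 120)
    (hs : s.Coprime 120) (x : ℝ) (hx : n ≤ x) (hx' : x < n + 1) :
    |(((Icc 1 n).filter fun k => k % 120 = a ∧ s ^ 2 ∣ k).card : ℝ) - x / 120 / s ^ 2| ≤ 1 := by
  have hs1 : 0 < s := by
    rcases Nat.eq_zero_or_pos s with rfl | h
    · norm_num at hs
    · exact h
  have hs0 : 0 < s ^ 2 := pow_pos hs1 2
  have hsm := sq_sq hs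
  set b := s ^ 2 * a % 120 with hb
  have hb' : b < 120 := Nat.mod_lt _ (by norm_num)
  have key : ∀ k, s ^ 2 * k % 120 = a ↔ k % 120 = b := by
    intro k
    constructor
    · intro h
      rw [hb]
      have e : s ^ 2 * a % 120 = s ^ 2 * (s ^ 2 * k) % 120 := by
        rw [← h, Nat.mul_mod, Nat.mod_mod, ← Nat.mul_mod]
      rw [e, ← mul_assoc, Nat.mul_mod, hsm, one_mul, Nat.mod_mod]
    · intro h
      rw [Nat.mul_mod, h, hb, ← Nat.mul_mod, ← mul_assoc, Nat.mul_mod, hsm, one_mul, Nat.mod_mod,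
        Nat.mod_eq_of_lt ha']
  have hb0 : 0 < b := by
    rw [Nat.pos_iff_ne_zero]
    intro h0
    have h1 := (key 0).2 (by rw [h0])
    rw [mul_zero, Nat.zero_mod] at h1
    rw [← h1] at hac
    norm_num at hac
  have e : ((Icc 1 n).filter fun k => k % 120 = a ∧ s ^ 2 ∣ k).card =
      ((Icc 1 (n / s ^ 2)).filter fun k => k % 120 = b).card := by
    symm
    refine card_bij (fun k _ => s ^ 2 * k) ?_ ?_ ?_
    · intro k hk
      rw [mem_filter, mem_Icc] at hk ⊢
      refine ⟨⟨Nat.mul_pos hs0 hk.1.1, ?_⟩, ?_, dvd_mul_right _ _⟩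
      · rw [mul_comm]
        exact (Nat.le_div_iff_mul_le hs0).1 hk.1.2
      · exact (key k).2 hk.2
    · intro k _ l _ h
      exact Nat.eq_of_mul_eq_mul_left hs0 h
    · intro k hk
      rw [mem_filter, mem_Icc] at hk
      obtain ⟨⟨h1, h2⟩, h3, l, rfl⟩ := hk
      refine ⟨l, ?_, rfl⟩
      rw [mem_filter, mem_Icc]
      refine ⟨⟨Nat.pos_of_mul_pos_left h1, ?_⟩, (key l).1 h3⟩
      rw [Nat.le_div_iff_mul_le hs0, mul_comm]
      exact h2
  rw [e]
  have hs0' : (0 : ℝ) < (s : ℝ) ^ 2 := by exact_mod_cast hs0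
  have h := card_mod (n / s ^ 2) b hb0 hb' (x / s ^ 2) ?_ ?_
  · rw [div_right_comm]
    exact h
  · rw [le_div_iff₀ hs0']
    have : n / s ^ 2 * s ^ 2 ≤ n := Nat.div_mul_le_self _ _
    have h' : ((n / s ^ 2 : ℕ) : ℝ) * (s : ℝ) ^ 2 ≤ n := by exact_mod_cast this
    linarith
  · rw [div_lt_iff₀ hs0']
    have : n + 1 ≤ (n / s ^ 2 + 1) * s ^ 2 := by
      have := Nat.lt_div_mul_add hs0 (a := n)
      rw [add_mul, one_mul]
      omega
    have h' : (n : ℝ) + 1 ≤ (((n / s ^ 2 : ℕ) : ℝ) + 1) * (s : ℝ) ^ 2 := by exact_mod_cast this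
    linarith

/-- the partial sums -/
noncomputable def Sm (r : ℕ) : ℝ :=
  ∑ s ∈ (Icc 1 r).filter (fun s => s.Coprime 120), (μ s : ℝ) / (s : ℝ) ^ 2

theorem Sm_step (r : ℕ) (hr : 1 ≤ r) : |Sm (r + 1) - Sm r| ≤ 1 / (r : ℝ) - 1 / ((r : ℝ) + 1) := by
  have hr0 : (0 : ℝ) < r := by exact_mod_cast hr
  have hb : 1 / ((r : ℝ) + 1) ^ 2 ≤ 1 / (r : ℝ) - 1 / ((r : ℝ) + 1) := by
    rw [div_sub_div _ _ hr0.ne' (by positivity), div_le_div_iff₀ (by positivity) (by positivity)]
    nlinarith
  unfold Sm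
  rw [← Finset.insert_Icc_right_eq_Icc_add_one (by omega : 1 ≤ r + 1), filter_insert]
  split_ifs with h
  · rw [sum_insert (by simp), add_sub_cancel_right, abs_div]
    refine le_trans ?_ hb
    push_cast
    rw [abs_of_pos (by positivity : (0 : ℝ) < ((r : ℝ) + 1) ^ 2)]
    refine div_le_div_of_nonneg_right ?_ (by positivity)
    exact_mod_cast ArithmeticFunction.abs_moebius_le_one
  · rw [sub_self, abs_zero]
    exact (by positivity : (0 : ℝ) ≤ 1 / ((r : ℝ) + 1) ^ 2).trans hb

theorem Sm_diff (r k : ℕ) (hr : 1 ≤ r) : |Sm (r + k) - Sm r| ≤ 1 / (r : ℝ) - 1 / ((r : ℝ) + k) := by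
  induction k with
  | zero => simp
  | succ k ih =>
    have h := Sm_step (r + k) (by omega)
    have e : Sm (r + (k + 1)) - Sm r = (Sm (r + k + 1) - Sm (r + k)) + (Sm (r + k) - Sm r) := by
      rw [← add_assoc]; ring
    rw [e]
    refine (abs_add_le _ _).trans ?_
    push_cast at h ⊢
    rw [← add_assoc]
    linarith

theorem Sm_lim : ∃ c : ℝ, (1 / 2 : ℝ) ≤ c ∧ ∀ r : ℕ, 1 ≤ r → |Sm r - c| ≤ 1 / (r : ℝ) := by
  have hC : CauchySeq Sm := by
    rw [Metric.cauchySeq_iff']
    intro ε hε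
    obtain ⟨N, hN⟩ := exists_nat_gt (1 / ε)
    have hN1 : 1 ≤ N + 1 := by omega
    refine ⟨N + 1, fun n hn => ?_⟩
    obtain ⟨k, rfl⟩ := Nat.exists_eq_add_of_le hn
    rw [Real.dist_eq]
    refine lt_of_le_of_lt (Sm_diff (N + 1) k hN1) ?_
    have h1 : (0 : ℝ) < 1 / (((N + 1 : ℕ) : ℝ) + k) := by positivity
    have h2 : 1 / ((N + 1 : ℕ) : ℝ) < ε := by
      rw [div_lt_comm₀ (by positivity) hε]
      push_cast
      linarith
    linarith
  obtain ⟨c, hc⟩ := cauchySeq_tendsto_of_complete hC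
  have hlim : ∀ r : ℕ, 1 ≤ r → |Sm r - c| ≤ 1 / (r : ℝ) := by
    intro r hr
    have h1 : Filter.Tendsto (fun n => |Sm r - Sm n|) Filter.atTop (nhds |Sm r - c|) :=
      (tendsto_const_nhds.sub hc).abs
    refine le_of_tendsto h1 ?_
    filter_upwards [Filter.eventually_ge_atTop r] with n hn
    obtain ⟨k, rfl⟩ := Nat.exists_eq_add_of_le hn
    rw [abs_sub_comm]
    have h2 := Sm_diff r k hr
    have h3 : (0 : ℝ) ≤ 1 / ((r : ℝ) + k) := by positivity
    linarith
  refine ⟨c, ?_, hlim⟩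
  have h2 := hlim 2 (by norm_num)
  have e : Sm 2 = 1 := by
    unfold Sm
    have : (Icc 1 2).filter (fun s : ℕ => s.Coprime 120) = {1} := by decide
    rw [this]
    simp
  rw [e, abs_le] at h2
  norm_num at h2
  linarith [h2.1, h2.2]

/-- the squarefree numbers up to `n` in a class modulo `120` -/
def FF (a n : ℕ) : Finset ℕ := (Icc 1 n).filter fun m => m % 120 = a ∧ Squarefree m

theorem FF_base : ∃ c C : ℝ, 0 < c ∧ 1 ≤ C ∧ ∀ a n : ℕ, a < 120 → a.Coprime 120 → 1 ≤ n →
    |((FF a n).card : ℝ) - c * n| ≤ C * Real.sqrt n := by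
  obtain ⟨c, hc0, hc⟩ := Sm_lim
  refine ⟨c / 120, c / 120 + 2, by linarith, by linarith, fun a n ha' hac hn1 => ?_⟩
  set x : ℝ := (n : ℝ) with hxn
  have hx : 0 ≤ x := Nat.cast_nonneg n
  have hnx : (n : ℝ) ≤ x := le_rfl
  have hnx' : x < n + 1 := by rw [hxn]; linarith
  set r := Nat.sqrt n with hr
  have hr1 : 1 ≤ r := Nat.sqrt_pos.2 hn1
  have hrx : (r : ℝ) ≤ Real.sqrt x := by
    refine Real.le_sqrt_of_sq_le (le_trans ?_ hnx)
    exact_mod_cast Nat.sqrt_le' n
  have hrx' : Real.sqrt x ≤ 2 * r := by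
    have h1 : n < (r + 1) ^ 2 := Nat.lt_succ_sqrt' n
    have h2 : n + 1 ≤ (r + 1) ^ 2 := h1
    have h3 : ((n : ℝ) + 1) ≤ ((r : ℝ) + 1) ^ 2 := by exact_mod_cast h2
    have h4 : Real.sqrt x ≤ r + 1 := by
      rw [Real.sqrt_le_left (by positivity)]
      linarith
    have h5 : (1 : ℝ) ≤ r := by exact_mod_cast hr1
    linarith
  have e1 : ((FF a n).card : ℝ) = ∑ s ∈ (Icc 1 r).filter (fun s => s.Coprime 120),
      (μ s : ℝ) * (((Icc 1 n).filter fun k => k % 120 = a ∧ s ^ 2 ∣ k).card : ℝ) := by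
    unfold FF
    rw [← filter_filter, card_filter]
    push_cast
    have h1 : ∀ m ∈ (Icc 1 n).filter (fun m => m % 120 = a), (if Squarefree m then (1 : ℝ) else 0) =
        ∑ s ∈ (Icc 1 r).filter (fun s => s.Coprime 120), if s ^ 2 ∣ m then (μ s : ℝ) else 0 := by
      intro m hm
      rw [mem_filter, mem_Icc] at hm
      have h2 := ind_sqf (m := m) (r := r) (by omega)
        (lt_of_le_of_lt hm.1.2 (Nat.lt_succ_sqrt' n))
      have h3 : (if Squarefree m then (1 : ℝ) else 0) = ((if Squarefree m then (1 : ℤ) else 0 : ℤ) : ℝ) := by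
        split_ifs <;> simp
      rw [h3, ← h2]
      push_cast
      rw [← sum_filter, filter_filter]
      refine sum_congr ?_ fun _ _ => rfl
      ext s
      simp only [mem_filter, mem_Icc]
      constructor
      · rintro ⟨h4, h5⟩
        refine ⟨h4, ?_, h5⟩
        have h6 : m.Coprime 120 := by
          rw [Nat.Coprime, ← Nat.mod_add_div m 120, hm.2, Nat.gcd_add_mul_left_left]
          exact hac
        exact Nat.Coprime.coprime_dvd_left ((Dvd.intro _ (sq s).symm).trans h5) h6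
      · rintro ⟨h4, -, h5⟩
        exact ⟨h4, h5⟩
    rw [sum_congr rfl h1, sum_comm]
    refine sum_congr rfl fun s _ => ?_
    rw [← sum_filter, sum_const, nsmul_eq_mul, filter_filter, mul_comm]
  have e2 : |((FF a n).card : ℝ) - x / 120 * Sm r| ≤ r := by
    rw [e1]
    unfold Sm
    rw [mul_sum, ← sum_sub_distrib]
    refine (abs_sum_le_sum_abs _ _).trans ?_
    have h1 : ∀ s ∈ (Icc 1 r).filter (fun s => s.Coprime 120),
        |(μ s : ℝ) * (((Icc 1 n).filter fun k => k % 120 = a ∧ s ^ 2 ∣ k).card : ℝ) -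
          x / 120 * ((μ s : ℝ) / (s : ℝ) ^ 2)| ≤ 1 := by
      intro s hs
      rw [mem_filter, mem_Icc] at hs
      have h2 := card_mod_sq n a s ha' hac hs.2 x hnx hnx'
      have h3 : |(μ s : ℝ)| ≤ 1 := by exact_mod_cast ArithmeticFunction.abs_moebius_le_one
      have e : (μ s : ℝ) * (((Icc 1 n).filter fun k => k % 120 = a ∧ s ^ 2 ∣ k).card : ℝ) -
          x / 120 * ((μ s : ℝ) / (s : ℝ) ^ 2) =
          (μ s : ℝ) * ((((Icc 1 n).filter fun k => k % 120 = a ∧ s ^ 2 ∣ k).card : ℝ) -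
            x / 120 / (s : ℝ) ^ 2) := by ring
      rw [e, abs_mul]
      exact mul_le_one₀ h3 (abs_nonneg _) h2
    refine (sum_le_sum h1).trans ?_
    rw [sum_const, nsmul_eq_mul, mul_one]
    have : ((Icc 1 r).filter (fun s => s.Coprime 120)).card ≤ r :=
      (card_filter_le _ _).trans (by simp)
    exact_mod_cast this
  have e3 := hc r hr1
  have hr0 : (0 : ℝ) < r := by exact_mod_cast hr1
  have hsq : Real.sqrt x * Real.sqrt x = x := Real.mul_self_sqrt hx
  have hs0 : 0 ≤ Real.sqrt x := Real.sqrt_nonneg x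
  have e4 : |x / 120 * Sm r - c / 120 * x| ≤ Real.sqrt x := by
    have : x / 120 * Sm r - c / 120 * x = x / 120 * (Sm r - c) := by ring
    rw [this, abs_mul, abs_of_nonneg (by positivity)]
    refine (mul_le_mul_of_nonneg_left e3 (by positivity)).trans ?_
    rw [mul_one_div, div_le_iff₀ hr0]
    nlinarith
  have e5 : |((FF a n).card : ℝ) - c / 120 * x| ≤ r + Real.sqrt x := by
    have : ((FF a n).card : ℝ) - c / 120 * x = (((FF a n).card : ℝ) - x / 120 * Sm r) +
      (x / 120 * Sm r - c / 120 * x) := by ring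
    rw [this]
    exact (abs_add_le _ _).trans (add_le_add e2 e4)
  refine e5.trans ?_
  nlinarith

/-! ### limits -/

/-- the class `P` has natural density `L` among the integers -/
def Lm (P : ℕ → Prop) (L : ℝ) : Prop := Tendsto (fun X : ℕ => (count P X : ℝ) / X) atTop (𝓝 L)

lemma lm_congr {P P' : ℕ → Prop} {L : ℝ} (h : ∀ m, P m ↔ P' m) (hP : Lm P L) : Lm P' L := by
  have e : P = P' := funext fun m => propext (h m)
  rwa [← e]

lemma lm_or {P P' : ℕ → Prop} {L L' : ℝ} (hd : ∀ m, P m → ¬ P' m) (h : Lm P L) (h' : Lm P' L') :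
    Lm (fun m => P m ∨ P' m) (L + L') := by
  unfold Lm at *
  refine (h.add h').congr fun X => ?_
  rw [count_or hd]
  push_cast
  ring

lemma lm_mul {P : ℕ → Prop} {L : ℝ} {g : ℕ} (hg : 0 < g) (h : Lm P L) :
    Lm (fun n => ∃ m, n = g * m ∧ P m) (L / g) := by
  unfold Lm at *
  have ht : Tendsto (fun X : ℕ => X / g) atTop atTop := Nat.tendsto_div_const_atTop hg.ne'
  have h1 := h.comp ht
  have h2 : Tendsto (fun X : ℕ => ((X / g : ℕ) : ℝ) / X) atTop (𝓝 (1 / g)) := by
    have hg' : (0 : ℝ) < g := by exact_mod_cast hg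
    refine tendsto_of_tendsto_of_tendsto_of_le_of_le'
      (g := fun X : ℕ => (1 : ℝ) / g - 1 / X) (h := fun X : ℕ => (1 : ℝ) / g) ?_
      tendsto_const_nhds ?_ ?_
    · have := (tendsto_const_nhds (x := (1 : ℝ) / g)).sub
        (tendsto_one_div_atTop_nhds_zero_nat (𝕜 := ℝ))
      simpa using this
    · filter_upwards [eventually_ge_atTop 1] with X hX
      have hX' : (0 : ℝ) < X := by exact_mod_cast hX
      rw [le_div_iff₀ hX', sub_mul, one_div, one_div, inv_mul_cancel₀ hX'.ne']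
      have h3 : X < (X / g + 1) * g := by
        have := Nat.lt_div_mul_add hg (a := X)
        rw [add_mul, one_mul]
        omega
      have h4 : (X : ℝ) < (((X / g : ℕ) : ℝ) + 1) * g := by exact_mod_cast h3
      have h5 : (g : ℝ)⁻¹ * X < ((X / g : ℕ) : ℝ) + 1 := by
        rw [inv_mul_lt_iff₀ hg', mul_comm (g : ℝ)]
        exact h4
      linarith
    · filter_upwards [eventually_ge_atTop 1] with X hX
      have hX' : (0 : ℝ) < X := by exact_mod_cast hX
      rw [div_le_div_iff₀ hX' hg', one_mul]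
      exact_mod_cast Nat.div_mul_le_self X g
  have h3 := h1.mul h2
  rw [mul_one_div] at h3
  refine h3.congr' ?_
  filter_upwards [eventually_ge_atTop g] with X hX
  have h4 : 0 < X / g := Nat.div_pos hX hg
  have h5 : (((X / g : ℕ) : ℝ)) ≠ 0 := by exact_mod_cast h4.ne'
  rw [count_mul hg]
  show (count P (X / g) : ℝ) / ((X / g : ℕ) : ℝ) * (((X / g : ℕ) : ℝ) / X) = _
  field_simp

lemma lm_empty : Lm (fun _ => False) 0 := by
  unfold Lm count
  simp

/-- a union of classes modulo `120` -/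
lemma lm_K : ∃ c : ℝ, 0 < c ∧ ∀ K : Finset ℕ, (∀ a ∈ K, a < 120 ∧ a.Coprime 120) →
    Lm (fun m => Squarefree m ∧ m % 120 ∈ K) (K.card * c) := by
  classical
  obtain ⟨c, C, hc, hC, h⟩ := FF_base
  refine ⟨c, hc, fun K => ?_⟩
  induction K using Finset.induction_on with
  | empty =>
    intro _
    rw [card_empty, Nat.cast_zero, zero_mul]
    exact lm_congr (fun m => by simp) lm_empty
  | insert a K ha ih =>
    intro hK
    have h1 := ih fun b hb => hK b (mem_insert_of_mem hb)
    obtain ⟨h2, h3⟩ := hK a (mem_insert_self _ _)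
    have h4 : Lm (fun m => Squarefree m ∧ m % 120 = a) c := by
      unfold Lm
      rw [Metric.tendsto_atTop]
      intro ε hε
      obtain ⟨N, hN⟩ := exists_nat_gt ((C / ε) ^ 2)
      refine ⟨max N 1, fun X hX => ?_⟩
      have hX1 : 1 ≤ X := (le_max_right _ _).trans hX
      have hXN : (N : ℝ) ≤ X := by exact_mod_cast (le_max_left _ _).trans hX
      have hX0 : (0 : ℝ) < X := by exact_mod_cast hX1
      have h5 := h a X h2 h3 hX1
      have e : count (fun m => Squarefree m ∧ m % 120 = a) X = (FF a X).card := by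
        unfold count FF
        congr 1
        ext m
        simp only [mem_filter]
        tauto
      rw [e, Real.dist_eq]
      have h6 : |((FF a X).card : ℝ) / X - c| = |((FF a X).card : ℝ) - c * X| / X := by
        rw [← abs_of_pos hX0, ← abs_div, abs_of_pos hX0, sub_div, mul_div_cancel_right₀ _ hX0.ne']
      rw [h6, div_lt_iff₀ hX0]
      refine lt_of_le_of_lt h5 ?_
      have hs : 0 < Real.sqrt X := Real.sqrt_pos.2 hX0
      have h7 : C / ε < Real.sqrt X := by
        apply Real.lt_sqrt_of_sq_lt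
        linarith
      rw [div_lt_iff₀ hε] at h7
      calc C * Real.sqrt X < (Real.sqrt X * ε) * Real.sqrt X := by
            exact mul_lt_mul_of_pos_right h7 hs
        _ = ε * (Real.sqrt X * Real.sqrt X) := by ring
        _ = ε * X := by rw [Real.mul_self_sqrt hX0.le]
    have h5 := lm_or (fun m g1 g2 => ha (by rw [← g1.2]; exact g2.2)) h4 h1
    have e : ((insert a K).card : ℝ) * c = c + K.card * c := by
      rw [card_insert_of_notMem ha]
      push_cast
      ring
    rw [e]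
    refine lm_congr (fun m => ?_) h5
    rw [mem_insert]
    tauto

lemma lm_prime {P : ℕ → Prop} {L : ℝ} {p : ℕ} (hp : p.Prime)
    (hP : ∀ m, P (p * m) ↔ P m) (h : Lm (fun m => (Squarefree m ∧ P m) ∧ m % p ≠ 0) L) :
    Lm (fun m => Squarefree m ∧ P m) (L + L / p) := by
  have h1 := lm_mul hp.pos h
  have h2 := lm_or (fun m g1 g2 => ?_) h h1
  · refine lm_congr (fun m => ?_) h2
    constructor
    · rintro (h3 | ⟨k, rfl, ⟨h3, h5⟩, h4⟩)
      · exact h3.1
      · exact ⟨sq_of hp h3 h4, (hP k).2 h5⟩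
    · rintro ⟨h3, h5⟩
      by_cases h4 : m % p = 0
      · obtain ⟨k, rfl⟩ := Nat.dvd_of_mod_eq_zero h4
        exact Or.inr ⟨k, rfl, ⟨h3.squarefree_of_dvd (Dvd.intro_left _ rfl), (hP k).1 h5⟩,
          not_sq hp.one_lt h3⟩
      · exact Or.inl ⟨⟨h3, h5⟩, h4⟩
  · obtain ⟨k, rfl, -⟩ := g2
    exact g1.2 (Nat.mul_mod_right p k)

/-- the density of the classes -/
theorem densities : ∃ c : ℝ, 0 < c ∧ Lm Squarefree (288 * c) ∧ Lm TwO (35 * c) := by
  obtain ⟨c, hc, h⟩ := lm_K
  refine ⟨c * (32 / 120), by positivity, ?_, ?_⟩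
  · have h1 := h ((range 120).filter fun a => a.Coprime 120) (fun a ha => by
      rw [mem_filter, mem_range] at ha
      exact ha)
    have e : ((range 120).filter fun a => a.Coprime 120).card = 32 := by decide
    rw [e] at h1
    have h2 : Lm (fun m => (Squarefree m ∧ (m % 3 ≠ 0 ∧ m % 2 ≠ 0)) ∧ m % 5 ≠ 0) ((32 : ℕ) * c) := by
      refine lm_congr (fun m => ?_) h1
      rw [mem_filter, mem_range, cop120]
      constructor
      · rintro ⟨g1, -, g2⟩
        exact ⟨⟨g1, g2.2.1, by omega⟩, g2.2.2⟩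
      · rintro ⟨⟨g1, g2⟩, g3⟩
        exact ⟨g1, Nat.mod_lt _ (by norm_num), by omega, g2.1, g3⟩
    have h3 := lm_prime (P := fun m => m % 3 ≠ 0 ∧ m % 2 ≠ 0) (p := 5) (by norm_num)
      (fun m => by
        show (5 * m % 3 ≠ 0 ∧ 5 * m % 2 ≠ 0) ↔ (m % 3 ≠ 0 ∧ m % 2 ≠ 0)
        omega) h2
    have h4 : Lm (fun m => (Squarefree m ∧ m % 2 ≠ 0) ∧ m % 3 ≠ 0) _ :=
      lm_congr (fun m => by tauto) h3
    have h5 := lm_prime (P := fun m => m % 2 ≠ 0) (p := 3) (by norm_num) (fun m => by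
        show 3 * m % 2 ≠ 0 ↔ m % 2 ≠ 0
        omega) h4
    have h6 : Lm (fun m => (Squarefree m ∧ True) ∧ m % 2 ≠ 0) _ := lm_congr (fun m => by tauto) h5
    have h7 := lm_prime (P := fun _ => True) (p := 2) (by norm_num) (fun m => by simp) h6
    have h8 : Lm Squarefree _ := lm_congr (fun m => by tauto) h7
    convert h8 using 1
    push_cast
    ring
  · have hk : ∀ g, ∀ a ∈ Kg g, a < 120 ∧ a.Coprime 120 := fun g a ha => by
      unfold Kg at ha
      rw [mem_filter, mem_range] at ha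
      exact ⟨ha.1, ha.2.1⟩
    have part : ∀ g, 0 < g → Lm (TwG g) ((Kg g).card * c / g) := fun g hg =>
      lm_mul hg (h (Kg g) (hk g))
    have k1 : (Kg 1).card = 4 := by decide
    have k3 : (Kg 3).card = 8 := by decide
    have k5 : (Kg 5).card = 8 := by decide
    have k15 : (Kg 15).card = 16 := by decide
    have disj : ∀ g g' : ℕ, g ∣ 15 → g' ∣ 15 → g ≠ g' → ∀ m, TwG g m → ¬ TwG g' m := by
      intro g g' hg hg' hne m h1 h2
      exact hne ((TwG_mod hg h1).symm.trans (TwG_mod hg' h2))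
    have u1 := lm_or (disj 1 3 (by norm_num) (by norm_num) (by norm_num))
      (part 1 (by norm_num)) (part 3 (by norm_num))
    have u2 := lm_or (disj 5 15 (by norm_num) (by norm_num) (by norm_num))
      (part 5 (by norm_num)) (part 15 (by norm_num))
    have u := lm_or (P := fun m => TwG 1 m ∨ TwG 3 m) (P' := fun m => TwG 5 m ∨ TwG 15 m)
      (fun m h h' => by
        rcases h with h | h <;> rcases h' with h' | h' <;>
          exact absurd ((TwG_mod (by norm_num) h).symm.trans (TwG_mod (by norm_num) h'))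
            (by norm_num)) u1 u2
    have u' := lm_congr (fun n => (two_iff_parts n).symm) u
    convert u' using 1
    rw [k1, k3, k5, k15]
    push_cast
    ring

/-- the proportion of the class among all the squarefree numbers -/
theorem density_TwO : Tendsto (fun X : ℕ => (count TwO X : ℝ) / (count Squarefree X : ℝ)) atTop
    (𝓝 (35 / 288)) := by
  obtain ⟨c, hc, h1, h2⟩ := densities
  unfold Lm at h1 h2
  have h3 := h2.div h1 (by positivity)
  have e : (35 * c) / (288 * c) = 35 / 288 := by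
    field_simp
  rw [e] at h3
  refine h3.congr' ?_
  filter_upwards [eventually_ge_atTop 1] with X hX
  have hX' : (X : ℝ) ≠ 0 := by exact_mod_cast (by omega : X ≠ 0)
  show (count TwO X : ℝ) / X / ((count Squarefree X : ℝ) / X) = _
  rw [div_div_div_cancel_right₀ hX']

end Pool.Agent.N856.JT
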