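import Pool.Agent.N856.JT.Two
import Pool.Agent.N856.JT.Sqf
import Pool.Agent.N975.AllOdd

/-!
# JT: simultaneous analytic rank zero for the twists of `X_0(15)`, natural density
-/

set_option autoImplicit false

open Filter Topology

namespace Pool.Agent.N856.JT.Gold

/-- coefficients of the twist `E^D : y² = x³ + A D x + B D` of `E = X_0(15)` -/
def A (D : ℤ) : ℤ := -12987 * D ^ 2

/-- coefficients of the twist `E^D : y² = x³ + A D x + B D` of `E = X_0(15)` -/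
def B (D : ℤ) : ℤ := -263466 * D ^ 3

/-- the curve `E^D` over `ℚ` -/
def E (D : ℤ) : WeierstrassCurve ℚ :=
  { a₁ := 0, a₂ := 0, a₃ := 0, a₄ := (A D : ℚ), a₆ := (B D : ℚ) }

/-- `a_p = p + 1 - #E^D(𝔽_p)`, that is `p` minus the number of affine points modulo `p` -/
noncomputable def ap (D : ℤ) (p : ℕ) : ℤ := (p : ℤ) - Nat.card {z : ZMod p × ZMod p //
  z.2 ^ 2 = z.1 ^ 3 + (A D : ZMod p) * z.1 + (B D : ZMod p)}

open Classical in
/-- `F` is entire and is, for `Re s > 3/2`, the `L`-function of `E^D` without the Euler factors at the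
primes which divide twice the discriminant of the cubic polynomial -/
def IsL (D : ℤ) (F : ℂ → ℂ) : Prop :=
  Differentiable ℂ F ∧ ∀ s : ℂ, (3 : ℝ) / 2 < s.re → HasProd (fun p : ℕ =>
    if p.Prime ∧ ¬ (p : ℤ) ∣ 2 * (-4 * A D ^ 3 - 27 * B D ^ 2) then
      (1 - (ap D p : ℂ) * (p : ℂ) ^ (-s) + (p : ℂ) ^ (1 - 2 * s))⁻¹ else 1) (F s)

/-- the analytic rank of `E^D` is `0` -/
def AnRankZero (D : ℤ) : Prop :=
  (∃ F : ℂ → ℂ, IsL D F) ∧ ∀ F : ℂ → ℂ, IsL D F → analyticOrderAt F 1 = 0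

/-- `E^D(ℚ)` is finite and `Ш(E^D/ℚ)` has no element of order two -/
def RankZeroShaTwo (D : ℤ) : Prop :=
  Finite (E D).toAffine.Point ∧ ∀ x : Pool.Agent.TH841.SH.D.Sha (E D), 2 • x = 0 → x = 0

/-- the squarefree `n ≡ 3 mod 4` such that `3` is not inert and `5` is not split in `ℚ(√-n)` -/
def Twist (n : ℕ) : Prop :=
  Squarefree n ∧ n % 4 = 3 ∧ n % 3 ≠ 1 ∧ (n % 5 = 0 ∨ n % 5 = 2 ∨ n % 5 = 3)

/-- the squarefree `d ≡ 1 mod 4` such that `3` and `5` split in `ℚ(√d)`, and `1` -/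
def Disc (d : ℕ) : Prop := Squarefree d ∧ d % 4 = 1 ∧ d % 3 = 1 ∧ (d % 5 = 1 ∨ d % 5 = 4)

/-- the squarefree part of `c D` for squarefree `c` and `D`; `E^(tw c D)` is the twist by `√c` of
`E^D` -/
def tw (c : ℕ) (D : ℤ) : ℤ := (c : ℤ) * D / ((Int.gcd (c : ℤ) D : ℕ) : ℤ) ^ 2

/-- the limit `(1 - 1/2) (1 - 1/4) (1 - 1/8) ⋯` -/
noncomputable def eta : ℝ := ∏' i : ℕ, (1 - (1 / 2 : ℝ) ^ (i + 1))

open Classical in
/-- the number of the `m ≤ X` with the property `P` -/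
noncomputable def count (P : ℕ → Prop) (X : ℕ) : ℕ := ((Finset.Icc 1 X).filter fun m => P m).card

/-- among the numbers with the property `P`, those with the property `Q` have natural density `δ` -/
def HasDensity (P Q : ℕ → Prop) (δ : ℝ) : Prop :=
  Tendsto (fun X : ℕ => (count (fun m => P m ∧ Q m) X : ℝ) / (count P X : ℝ)) atTop (𝓝 δ)

open Classical in
/-- the number of the squarefree integers `D` of any sign with `|D| < X` and the property `P` -/
noncomputable def countZ (P : ℤ → Prop) (X : ℕ) : ℕ :=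
  ((Finset.Ioo (-(X : ℤ)) X).filter fun D => Squarefree D ∧ P D).card

section proof

open Pool.Agent.N856.JL
open Pool.Agent.N969.P15 (Qc)
open Pool.Agent.N875.X15 (WS Ao crit_ao_S)
open Pool.Agent.N856.JT.Two (mul mul_spec)

theorem uniq {D : ℤ} {F G : ℂ → ℂ} (hF : IsL D F) (hG : IsL D G) : F = G := by
  have hF1 : AnalyticOnNhd ℂ F Set.univ := fun z _ => (hF.1.analyticAt z)
  have hG1 : AnalyticOnNhd ℂ G Set.univ := fun z _ => (hG.1.analyticAt z)
  have h2 : F =ᶠ[𝓝 (2 : ℂ)] G := by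
    have ho : IsOpen {s : ℂ | (3 : ℝ) / 2 < s.re} := isOpen_lt continuous_const Complex.continuous_re
    have hm : (2 : ℂ) ∈ {s : ℂ | (3 : ℝ) / 2 < s.re} := by
      show (3 : ℝ) / 2 < (2 : ℂ).re
      norm_num
    filter_upwards [ho.mem_nhds hm] with s hs
    exact (hF.2 s hs).unique (hG.2 s hs)
  exact hF1.eq_of_eventuallyEq hG1 h2

theorem an_of {n : ℕ} (h : Twist n) (hQ : Qc n) : AnRankZero (-(n : ℤ)) := by
  have hn2 : n % 2 = 1 := by have := h.2.1; omega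
  have h1 := Pool.Agent.N975.All.bsd_odd (n := n) ⟨Or.inl ⟨h.1, h.2.1⟩, h.2.2⟩ hn2
    ⟨fun _ => hQ, fun h3 => by omega⟩
  have e : Pool.Agent.N975.All.mD n = -(n : ℤ) := if_pos hn2
  rw [e] at h1
  obtain ⟨F, h2, h3, h4, -⟩ := h1
  have hF : IsL (-(n : ℤ)) F := by
    refine ⟨h2, fun s hs => ?_⟩
    refine (congrArg (fun g => HasProd g (F s)) (funext fun p => ?_)).mp (h3 s hs)
    unfold ap A B
    push_cast
    congr 1
  exact ⟨⟨F, hF⟩, fun G hG => by rw [uniq hG hF]; exact h4⟩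

theorem rz_iff {n : ℕ} (h : Twist n) : RankZeroShaTwo (-(n : ℤ)) ↔ Qc n := by
  have h1 : RankZeroShaTwo (-(n : ℤ)) ↔ Pool.Agent.N875.X15.Fin2 (WS (-(n : ℤ))) := by
    unfold RankZeroShaTwo Pool.Agent.N875.X15.Fin2
    refine and_congr Iff.rfl (forall_congr' fun x => ?_)
    rw [two_nsmul]
    exact Iff.rfl
  rw [h1]
  exact crit_ao_S (n := n) h

theorem tw_neg {c n : ℕ} (hc : 0 < c) : tw c (-(n : ℤ)) = -((mul c n : ℕ) : ℤ) := by
  unfold tw mul
  have e : Int.gcd (c : ℤ) (-(n : ℤ)) = Nat.gcd c n := by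
    rw [Int.gcd_neg, Int.gcd_natCast_natCast]
  have hd : Nat.gcd c n ^ 2 ∣ c * n := by
    rw [pow_two]
    exact Nat.mul_dvd_mul (Nat.gcd_dvd_left c n) (Nat.gcd_dvd_right c n)
  rw [e]
  obtain ⟨k, hk⟩ := hd
  have hg : 0 < Nat.gcd c n := Nat.gcd_pos_of_pos_left _ hc
  have hg2 : ((Nat.gcd c n : ℕ) : ℤ) ^ 2 ≠ 0 := by positivity
  rw [hk, Nat.mul_div_cancel_left _ (pow_pos hg 2)]
  have e2 : (c : ℤ) * (-(n : ℤ)) = ((Nat.gcd c n : ℕ) : ℤ) ^ 2 * (-(k : ℤ)) := by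
    have : (c : ℤ) * n = ((Nat.gcd c n : ℕ) : ℤ) ^ 2 * k := by exact_mod_cast hk
    rw [mul_neg, this]
    ring
  rw [e2, Int.mul_ediv_cancel_left _ hg2]

open Classical in
/-- the law for all the patterns -/
theorem law {T V : Finset ℕ} (hT : ∀ c ∈ T, Disc c) (hV : V ⊆ T) :
    HasDensity Twist (fun n => (∀ c ∈ V, AnRankZero (tw c (-(n : ℤ)))) ∧
      ∀ c ∈ T, (RankZeroShaTwo (tw c (-(n : ℤ))) ↔ c ∈ V)) (eta ^ V.card * (1 - eta) ^ (T \ V).card) := by
  have h := pattern (P := Twist) (m := 23) (by norm_num) Pool.Agent.N856.JT.Two.twist_23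
    (R := fun c n => Qc (mul c n)) (T := T)
    (fun W hW hne => Pool.Agent.N856.JT.Two.law_n hne fun c hc => hT c (hW hc)) V hV
  refine Pool.Agent.N856.JL.Av.dens_congr (fun _ => Iff.rfl) (fun n hn => ?_) h
  have key : ∀ c ∈ T, Twist (mul c n) ∧ tw c (-(n : ℤ)) = -((mul c n : ℕ) : ℤ) := fun c hc =>
    ⟨Pool.Agent.N856.JT.Two.twist_mul (hT c hc) hn,
      tw_neg (Nat.pos_of_ne_zero (hT c hc).1.ne_zero)⟩
  constructor
  · intro g
    refine ⟨fun c hc => ?_, fun c hc => ?_⟩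
    · rw [(key c (hV hc)).2]
      exact an_of (key c (hV hc)).1 ((g c (hV hc)).2 hc)
    · rw [(key c hc).2]
      exact (rz_iff (key c hc).1).trans (g c hc)
  · rintro ⟨-, g⟩ c hc
    have := g c hc
    rw [(key c hc).2] at this
    exact (rz_iff (key c hc).1).symm.trans this

/-! ### all the squarefree integers -/

open Classical in
lemma countZ_all' (P : ℤ → Prop) (hP : ∀ D, P D) (Q : ℕ → Prop) (hQ : ∀ m, Q m ↔ Squarefree m)
    (X : ℕ) : countZ P (X + 1) = 2 * count Q X := by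
  unfold countZ count
  have h1 : ((Finset.Ioo (-((X + 1 : ℕ) : ℤ)) ((X + 1 : ℕ) : ℤ)).filter fun D => Squarefree D ∧ P D) =
      ((Finset.Icc 1 X).filter fun m => Q m).image (fun m : ℕ => (m : ℤ)) ∪
      ((Finset.Icc 1 X).filter fun m => Q m).image (fun m : ℕ => -(m : ℤ)) := by
    ext D
    simp only [Finset.mem_filter, Finset.mem_Ioo, Finset.mem_union, Finset.mem_image,
      Finset.mem_Icc, hQ]
    constructor
    · rintro ⟨⟨h2, h3⟩, h4, -⟩
      have h5 : D ≠ 0 := h4.ne_zero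
      have h6 : Squarefree D.natAbs := Int.squarefree_natAbs.2 h4
      rcases lt_or_gt_of_ne h5 with h7 | h7
      · exact Or.inr ⟨D.natAbs, ⟨⟨by omega, by omega⟩, h6⟩, by omega⟩
      · exact Or.inl ⟨D.natAbs, ⟨⟨by omega, by omega⟩, h6⟩, by omega⟩
    · rintro (⟨m, ⟨⟨h2, h3⟩, h4⟩, rfl⟩ | ⟨m, ⟨⟨h2, h3⟩, h4⟩, rfl⟩)
      · exact ⟨⟨by omega, by omega⟩, Int.squarefree_natCast.2 h4, hP _⟩
      · refine ⟨⟨by omega, by omega⟩, ?_, hP _⟩
        rw [← Int.squarefree_natAbs]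
        simpa using h4
  rw [h1, Finset.card_union_of_disjoint, Finset.card_image_of_injective, Finset.card_image_of_injective]
  · ring
  · intro a b h
    simpa using h
  · intro a b h
    simpa using h
  · rw [Finset.disjoint_left]
    intro D h2 h3
    simp only [Finset.mem_filter, Finset.mem_image, Finset.mem_Icc] at h2 h3
    obtain ⟨m, ⟨⟨h4, -⟩, -⟩, rfl⟩ := h2
    obtain ⟨k, ⟨⟨h5, -⟩, -⟩, h6⟩ := h3
    omega

lemma countZ_all (X : ℕ) : countZ (fun _ => True) (X + 1) = 2 * count Squarefree X :=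
  countZ_all' _ (fun _ => trivial) _ (fun _ => Iff.rfl) X

open Classical in
lemma countZ_ge (P : ℤ → Prop) (Q : ℕ → Prop) (hQ : ∀ n, Q n → Squarefree n ∧ P (-(n : ℤ))) (X : ℕ) :
    count Q X ≤ countZ P (X + 1) := by
  unfold countZ count
  refine Finset.card_le_card_of_injOn (fun m : ℕ => -(m : ℤ)) ?_ ?_
  · intro m hm
    simp only [Finset.coe_filter, Finset.mem_Icc, Set.mem_ofPred_eq] at hm
    simp only [Finset.coe_filter, Finset.mem_Ioo, Set.mem_ofPred_eq]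
    obtain ⟨⟨h1, h2⟩, h3⟩ := hm
    obtain ⟨h4, h5⟩ := hQ m h3
    refine ⟨⟨by omega, by omega⟩, ?_, h5⟩
    rw [← Int.squarefree_natAbs]
    simpa using h4
  · intro a _ b _ h
    simpa using h

theorem all {T : Finset ℕ} (hT : ∀ c ∈ T, Disc c) (ε : ℝ) (hε : 0 < ε) : ∀ᶠ X : ℕ in atTop,
    (35 / 576 * eta ^ T.card - ε) * (countZ (fun _ => True) X : ℝ) ≤
      (countZ (fun D => ∀ c ∈ T, AnRankZero (tw c D)) X : ℝ) := by
  classical
  have h1 := law hT (Finset.Subset.refl T)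
  rw [Finset.sdiff_self, Finset.card_empty, pow_zero, mul_one] at h1
  unfold HasDensity at h1
  have h2 : Tendsto (fun X : ℕ => (count Twist X : ℝ) / (count Squarefree X : ℝ)) atTop
    (𝓝 (35 / 288)) := density_TwO
  have h3 := (h1.mul h2).div_const 2
  set Q : ℕ → Prop := fun n => Twist n ∧ ((∀ c ∈ T, AnRankZero (tw c (-(n : ℤ)))) ∧
      ∀ c ∈ T, (RankZeroShaTwo (tw c (-(n : ℤ))) ↔ c ∈ T)) with hQ
  have key : ∀ᶠ X : ℕ in atTop, (35 / 576 * eta ^ T.card - ε) * (2 * count Squarefree X : ℝ) ≤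
      (count Q X : ℝ) := by
    have h4 : eta ^ T.card * (35 / 288) / 2 = 35 / 576 * eta ^ T.card := by ring
    rw [h4] at h3
    have h5 := h3.eventually (eventually_gt_nhds (show 35 / 576 * eta ^ T.card - ε <
      35 / 576 * eta ^ T.card by linarith))
    filter_upwards [h5, eventually_ge_atTop 23] with X h6 hX
    have ht : (0 : ℝ) < (count Twist X : ℝ) := by
      exact_mod_cast count_pos (by norm_num) Pool.Agent.N856.JT.Two.twist_23 hX
    have hs : (0 : ℝ) < (count Squarefree X : ℝ) := by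
      exact_mod_cast count_pos (by norm_num) squarefree_one (by omega : 1 ≤ X)
    have h7 : (count Q X : ℝ) / (count Twist X : ℝ) * ((count Twist X : ℝ) /
        (count Squarefree X : ℝ)) / 2 = (count Q X : ℝ) / (2 * count Squarefree X) := by
      field_simp
    have h8 : 35 / 576 * eta ^ T.card - ε < (count Q X : ℝ) / (2 * count Squarefree X) := by
      rw [← h7]
      exact h6
    rw [lt_div_iff₀ (by positivity)] at h8
    exact h8.le
  rw [eventually_atTop] at key ⊢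
  obtain ⟨N, hN⟩ := key
  refine ⟨N + 1, fun X hX => ?_⟩
  obtain ⟨Y, rfl⟩ : ∃ Y, X = Y + 1 := ⟨X - 1, by omega⟩
  have h9 := hN Y (by omega)
  have h10 := countZ_all Y
  have h11 := countZ_ge (fun D => ∀ c ∈ T, AnRankZero (tw c D)) Q
    (fun n hn => ⟨hn.1.1, hn.2.1⟩) Y
  have h10' : (countZ (fun _ => True) (Y + 1) : ℝ) = 2 * count Squarefree Y := by
    rw [h10]
    push_cast
    rfl
  rw [h10']
  have h11' : (count Q Y : ℝ) ≤ (countZ (fun D => ∀ c ∈ T, AnRankZero (tw c D)) (Y + 1) : ℝ) := by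
    exact_mod_cast h11
  exact h9.trans h11'

/-- **Main theorem.** -/
theorem main {T : Finset ℕ} (hT : ∀ c ∈ T, Disc c) :
    (∀ V ⊆ T, HasDensity Twist (fun n => (∀ c ∈ V, AnRankZero (tw c (-(n : ℤ)))) ∧
      ∀ c ∈ T, (RankZeroShaTwo (tw c (-(n : ℤ))) ↔ c ∈ V))
      (eta ^ V.card * (1 - eta) ^ (T.card - V.card))) ∧
    ∀ ε : ℝ, 0 < ε → ∀ᶠ X : ℕ in atTop,
      (35 / 576 * eta ^ T.card - ε) * (countZ (fun _ => True) X : ℝ) ≤
        (countZ (fun D => ∀ c ∈ T, AnRankZero (tw c D)) X : ℝ) := by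
  classical
  refine ⟨fun V hV => ?_, all hT⟩
  rw [← Finset.card_sdiff_of_subset hV]
  exact law hT hV

end proof

end Pool.Agent.N856.JT.Gold
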