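import Pool.Agent.N856.JT.Cls
import Pool.Agent.N875.X15.AsmB

/-!
# JT: the 2-part of the Birch and Swinnerton-Dyer formula for several twists of `X_0(15)` at once
-/

set_option autoImplicit false
set_option linter.style.haveILetI false

open WeierstrassCurve MeasureTheory Filter Topology

namespace Pool.Agent.N856.JT.Two

open scoped Classical

open Pool.Agent.TH841.SH.D (Sha)

/-- The quadratic twist of `X_0(15)` by `m ≡ 1` modulo `4`:
`y² + x y = x³ - ((7 m + 1)/4) x² - 9 m² x`.  For `m = 1` this is the curve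
`y² + x y = x³ - 2 x² - 9 x`, which becomes `y² + x y + y = x³ + x² - 10 x - 10` if `x` is replaced by
`x + 1`. -/
def twist (m : ℤ) : WeierstrassCurve ℤ := ⟨1, -((7 * m + 1) / 4), 0, -(9 * m ^ 2), 0⟩

/-- The twist `E_{-n}` of `X_0(15)`. -/
def E (n : ℕ) : WeierstrassCurve ℤ := twist (-(n : ℤ))

/-- The curve given by the equation of `W` over the ring `R`. -/
abbrev base (W : WeierstrassCurve ℤ) (R : Type) [CommRing R] : WeierstrassCurve R :=
  W.map (Int.castRingHom R)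

/-- `W` is a global minimal equation: `Δ ≠ 0` and `|Δ|` is minimal among the integral equations of the
same curve over `ℚ`. -/
def Minimal (W : WeierstrassCurve ℤ) : Prop :=
  W.Δ ≠ 0 ∧ ∀ (W' : WeierstrassCurve ℤ) (C : VariableChange ℚ), C • base W ℚ = base W' ℚ →
    |W.Δ| ≤ |W'.Δ|

/-- The number of the affine points modulo `p`. -/
noncomputable def pts (W : WeierstrassCurve ℤ) (p : ℕ) : ℕ :=
  Nat.card {P : ZMod p × ZMod p // (base W (ZMod p)).toAffine.Equation P.1 P.2}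

/-- `a_p = p + 1 - #W(𝔽_p)`, the points counted with the point at infinity. -/
noncomputable def a (W : WeierstrassCurve ℤ) (p : ℕ) : ℤ := p - pts W p

/-- `L` is the L-function of the minimal equation `W`: it is entire, and for `Re s > 3/2` it is given by
the Euler product with the factors `(1 - a_p p^(-s) + p^(1 - 2 s))⁻¹` if `p` does not divide `Δ` and
`(1 - a_p p^(-s))⁻¹` otherwise. -/
def IsL (W : WeierstrassCurve ℤ) (L : ℂ → ℂ) : Prop :=
  Differentiable ℂ L ∧ ∀ s : ℂ, 3 / 2 < s.re →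
    HasProd (fun p : Nat.Primes => (1 - (a W p : ℂ) * ((p : ℕ) : ℂ) ^ (-s) +
      (if ((p : ℕ) : ℤ) ∣ W.Δ then 0 else ((p : ℕ) : ℂ) ^ (1 - 2 * s)))⁻¹) (L s)

/-- The point `P` of `W` over `ℚ_p` reduces to a singular point of the curve modulo `p`: the coordinates
are integral and both partial derivatives of `y² + a₁ x y + a₃ y - x³ - a₂ x² - a₄ x - a₆` are in the
maximal ideal. -/
def SingularReduction (W : WeierstrassCurve ℤ) (p : ℕ) [Fact p.Prime]
    (P : (base W ℚ_[p]).toAffine.Point) : Prop :=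
  ∃ x y h, P = Affine.Point.some x y h ∧ ‖x‖ ≤ 1 ∧ ‖y‖ ≤ 1 ∧
    ‖W.a₁ * y - (3 * x ^ 2 + 2 * W.a₂ * x + W.a₄)‖ < 1 ∧ ‖2 * y + W.a₁ * x + W.a₃‖ < 1

/-- `c p` is the Tamagawa number `[W(ℚ_p) : W⁰(ℚ_p)]` for all primes `p`, where `W⁰(ℚ_p)` is the subgroup
of the points which do not have singular reduction; it is `1` if `p` does not divide `Δ`. -/
def IsTamagawa (W : WeierstrassCurve ℤ) (c : ℕ → ℕ) : Prop :=
  ∀ (p : ℕ) [Fact p.Prime], (∃ H : AddSubgroup (base W ℚ_[p]).toAffine.Point,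
    (∀ P, P ∈ H ↔ ¬ SingularReduction W p P) ∧ H.index = c p) ∧ (¬ (p : ℤ) ∣ W.Δ → c p = 1)

/-- The product of the Tamagawa numbers. -/
noncomputable def Tam (W : WeierstrassCurve ℤ) (c : ℕ → ℕ) : ℕ := ∏ p ∈ W.Δ.natAbs.primeFactors, c p

/-- `4 x³ + b₂ x² + 2 b₄ x + b₆ = (2 y + a₁ x + a₃)²`. -/
def cubic (W : WeierstrassCurve ℤ) (x : ℝ) : ℝ := 4 * x ^ 3 + W.b₂ * x ^ 2 + 2 * W.b₄ * x + W.b₆

/-- `Ω = ∫_{W(ℝ)} |ω|` with `ω = dx / (2 y + a₁ x + a₃)`, as an integral over `x`: two real points lie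
over each `x` with `cubic x > 0`. -/
noncomputable def Omega (W : WeierstrassCurve ℤ) : ℝ :=
  2 * ∫ x in {x : ℝ | 0 < cubic W x}, 1 / √(cubic W x)

/-- The order of the torsion subgroup of `W(ℚ)`. -/
noncomputable def torsOrder (W : WeierstrassCurve ℤ) : ℕ :=
  Nat.card (AddCommGroup.torsion (base W ℚ).toAffine.Point)

/-- The order of the Tate-Shafarevich group predicted by the formula in rank zero, for the value `l` of
the L-function at `s = 1` and the Tamagawa numbers `c`: `l #W(ℚ)_tors² / (Ω ∏ c_p)`. -/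
noncomputable def anOrder (W : WeierstrassCurve ℤ) (l : ℂ) (c : ℕ → ℕ) : ℂ :=
  l * (torsOrder W : ℂ) ^ 2 / ((Omega W : ℝ) * (Tam W c : ℂ))

/-- The 2-part of the formula for `W` over `ℚ`, in the case that the predicted order of `Ш` is a unit at
two: `W` is minimal, `L(W, s)` is entire, `L(W, 1) ≠ 0`, `W(ℚ)` is finite, the 2-primary part of
`Ш(W/ℚ)` is zero, and the predicted order of `Ш` is a rational number which is a unit at two. -/
def TwoPart (W : WeierstrassCurve ℤ) : Prop :=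
  Minimal W ∧ Finite (base W ℚ).toAffine.Point ∧
  (∀ (n : ℕ) (x : Sha (base W ℚ)), 2 ^ n • x = 0 → x = 0) ∧
  ∃ (L : ℂ → ℂ) (c : ℕ → ℕ) (z : ℚ), IsL W L ∧ L 1 ≠ 0 ∧ IsTamagawa W c ∧ 0 < Tam W c ∧
    0 < Omega W ∧ 0 < torsOrder W ∧ anOrder W (L 1) c = z ∧ z ≠ 0 ∧ padicValRat 2 z = 0

/-- The formula predicts that the order of `Ш(W/ℚ)` is even (or that the rank is positive): `W` is
minimal, `L(W, s)` is entire, and `L(W, 1) #W(ℚ)_tors² / (Ω ∏ c_p)` is the product of a rational number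
which is a unit at two and of the square of an even integer. -/
def EvenOrder (W : WeierstrassCurve ℤ) : Prop :=
  Minimal W ∧
  ∃ (L : ℂ → ℂ) (c : ℕ → ℕ) (w : ℚ) (y : ℤ), IsL W L ∧ IsTamagawa W c ∧ 0 < Tam W c ∧
    0 < Omega W ∧ 0 < torsOrder W ∧ anOrder W (L 1) c = ((w * (y : ℚ) ^ 2 : ℚ) : ℂ) ∧
    w ≠ 0 ∧ padicValRat 2 w = 0 ∧ Even y

/-- The group `E_{-n}(ℚ)` is finite and `Ш(E_{-n}/ℚ)` has no element of order two. -/
def NoSelmer (n : ℕ) : Prop :=
  Finite (base (E n) ℚ).toAffine.Point ∧ ∀ x : Sha (base (E n) ℚ), 2 • x = 0 → x = 0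

/-- The class of the squarefree `n ≡ 3` modulo `4` such that `3` is not inert and `5` is not split in
`ℚ(√-n)`: all the odd negative fundamental discriminants `-n` with this property. -/
def Twist (n : ℕ) : Prop :=
  Squarefree n ∧ n % 4 = 3 ∧ n % 3 ≠ 1 ∧ (n % 5 = 0 ∨ n % 5 = 2 ∨ n % 5 = 3)

/-- The class of the squarefree `d ≡ 1` modulo `4` such that `3` and `5` split in `ℚ(√d)` or `d = 1`: all
the odd positive fundamental discriminants `d` with this property, and `1`. -/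
def Disc (d : ℕ) : Prop := Squarefree d ∧ d % 4 = 1 ∧ d % 3 = 1 ∧ (d % 5 = 1 ∨ d % 5 = 4)

/-- The squarefree part of `c n`, for squarefree `c` and `n`. -/
def mul (c n : ℕ) : ℕ := c * n / Nat.gcd c n ^ 2

/-- `n` has the pattern `V ⊆ T`: among the curves `E_{-c n}`, `c ∈ T`, exactly those with `c ∈ V` have
finitely many rational points and no element of order two in `Ш`; for these the 2-part of the formula
holds, with a predicted order of `Ш` which is a unit at two, and for the others the formula predicts that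
the order of `Ш` is even or the rank positive. -/
def Pattern (T V : Finset ℕ) (n : ℕ) : Prop :=
  ∀ c ∈ T, (NoSelmer (mul c n) ↔ c ∈ V) ∧ (c ∈ V → TwoPart (E (mul c n))) ∧
    (c ∉ V → EvenOrder (E (mul c n)))

/-- the limit `(1 - 1/2) (1 - 1/4) (1 - 1/8) ⋯` -/
noncomputable def eta : ℝ := ∏' i : ℕ, (1 - (1 / 2 : ℝ) ^ (i + 1))

/-- the number of the `m ≤ X` with the property `P` -/
noncomputable def count (P : ℕ → Prop) (X : ℕ) : ℕ := ((Finset.Icc 1 X).filter fun m => P m).card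

/-- among the numbers with the property `P`, those with the property `Q` have natural density `δ` -/
def HasDensity (P Q : ℕ → Prop) (δ : ℝ) : Prop :=
  Tendsto (fun X : ℕ => (count (fun m => P m ∧ Q m) X : ℝ) / (count P X : ℝ)) atTop (𝓝 δ)

section proof

open Pool.Agent.N875.X15 (WN WNQ Em EQm Ao Ae Fin2 fin2_pow t2 strongO strongE rel_odd rel_even
  crit_ao_N crit_ae qc_P15 qc_iff_class qe_iff_class odd_val)
open Pool.Agent.N856.JL
open Pool.Agent.N969.P15 (Qc)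

lemma omega_eq (W : WeierstrassCurve ℤ) : Omega W = Pool.Agent.Y700.Omega W := by
  unfold Omega Pool.Agent.Y700.Omega
  rw [← integral_const_mul]
  show ∫ x in {x : ℝ | 0 < Pool.Agent.Y700.psi W x}, 2 * (1 / √(Pool.Agent.Y700.psi W x)) = _
  congr 1
  funext x
  rw [mul_one_div]

/-- the Tamagawa numbers -/
noncomputable def cT (W : WeierstrassCurve ℤ) (p : ℕ) : ℕ :=
  if h : p.Prime then (haveI := Fact.mk h; Pool.Agent.Y700.tam W p) else 1

lemma isTam (W : WeierstrassCurve ℤ) : IsTamagawa W (cT W) := by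
  intro p hp
  have hc : cT W p = Pool.Agent.Y700.tam W p := by
    unfold cT
    rw [dif_pos hp.out]
  refine ⟨⟨Pool.Agent.Y700.E0 W p, fun P => ?_, by rw [hc]; rfl⟩, fun h => ?_⟩
  · rw [Pool.Agent.Y809.BSD14.t_E0 W p P]
    constructor
    · rintro h ⟨x, y, h1, rfl, h2⟩
      exact h x y h1 rfl h2
    · intro h x y h1 h2 h3
      exact h ⟨x, y, h1, h2, h3⟩
  · rw [hc]
    exact Pool.Agent.Y809.BSD14.t_TGOOD W p h

lemma tam_eq (W : WeierstrassCurve ℤ) : Tam W (cT W) = Pool.Agent.Y700.tamProd W := rfl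

lemma two_iff {A : Type} [AddCommGroup A] : (∀ x : A, 2 • x = 0 → x = 0) ↔
    ∀ x : A, x + x = 0 → x = 0 := by
  refine forall_congr' fun x => ?_
  rw [two_nsmul]

lemma anOrder_eq {W : WeierstrassCurve ℤ} {l : ℂ} {q : ℝ} (hΩ : 0 < Omega W)
    (hT : 0 < Tam W (cT W)) (ht : 0 < torsOrder W)
    (hl : l = ((q * (Pool.Agent.Y700.Omega W * Pool.Agent.Y700.tamProd W /
      (Nat.card (AddCommGroup.torsion (base W ℚ).toAffine.Point) : ℝ) ^ 2) : ℝ) : ℂ)) :
    anOrder W l (cT W) = (q : ℂ) := by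
  have e1 : Pool.Agent.Y700.Omega W = Omega W := (omega_eq _).symm
  have e2 : Pool.Agent.Y700.tamProd W = Tam W (cT W) := rfl
  have e3 : Nat.card (AddCommGroup.torsion (base W ℚ).toAffine.Point) = torsOrder W := rfl
  rw [e1, e2, e3] at hl
  have h1 : (Omega W : ℂ) ≠ 0 := by exact_mod_cast hΩ.ne'
  have h2 : ((Tam W (cT W) : ℕ) : ℂ) ≠ 0 := by exact_mod_cast hT.ne'
  have h3 : ((torsOrder W : ℕ) : ℂ) ≠ 0 := by exact_mod_cast ht.ne'
  unfold anOrder
  rw [hl]
  push_cast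
  field_simp


/-- the criterion for one curve -/
theorem one {n : ℕ} (h : Twist n) : (NoSelmer n ↔ Qc n) ∧ (Qc n → TwoPart (E n)) ∧
    (¬ Qc n → EvenOrder (E n)) := by
  have hao : Ao n := h
  obtain ⟨hmin, htam, htor, hΩ, f, w, y, hf, hw0, hw, hyQ, hval⟩ := strongO hao (rel_odd hao)
  have hfin := crit_ao_N hao
  have hsel : NoSelmer n ↔ Qc n := (and_congr Iff.rfl two_iff).trans hfin
  have hΩ' : 0 < Omega (E n) := by
    rw [omega_eq]
    exact hΩ
  have hT : 0 < Tam (E n) (cT (E n)) := by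
    show 0 < Pool.Agent.Y700.tamProd (WN (-(n : ℤ)))
    rw [htam]
    refine Nat.mul_pos (pow_pos (by norm_num) _) (Nat.mul_pos ?_ ?_) <;> unfold t2 <;> split_ifs <;> norm_num
  have hto : 0 < torsOrder (E n) := by
    obtain ⟨t, ht, ht'⟩ := htor
    show 0 < Nat.card (AddCommGroup.torsion (WNQ (-(n : ℤ))).toAffine.Point)
    rw [ht']
    exact Nat.mul_pos (by norm_num) ht.pos
  have han : anOrder (E n) (f 1) (cT (E n)) = ((w * (y : ℚ) ^ 2 : ℚ) : ℂ) := by
    have := anOrder_eq (q := (w : ℝ) * (y : ℝ) ^ 2) hΩ' hT hto hval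
    rw [this]
    push_cast
    rfl
  refine ⟨hsel, fun hQ => ?_, fun hQ => ?_⟩
  · have hns := hfin.2 hQ
    have hyo : Odd y := hyQ.2 hQ
    have hy0 : y ≠ 0 := by
      rintro rfl
      exact absurd hyo (by decide)
    have hyq : (y : ℚ) ≠ 0 := by exact_mod_cast hy0
    have hz : w * (y : ℚ) ^ 2 ≠ 0 := mul_ne_zero hw0 (pow_ne_zero 2 hyq)
    refine ⟨hmin, hns.1, fun k x hx => fin2_pow hns k x hx, f, cT _, w * (y : ℚ) ^ 2, hf, ?_,
      isTam _, hT, hΩ', hto, han, hz, ?_⟩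
    · intro h0
      rw [h0] at han
      unfold anOrder at han
      rw [zero_mul, zero_div] at han
      exact hz (by exact_mod_cast han.symm)
    · have : Fact (Nat.Prime 2) := ⟨Nat.prime_two⟩
      rw [padicValRat.mul hw0 (pow_ne_zero 2 hyq), padicValRat.pow, hw, odd_val hyo]
      simp
  · refine ⟨hmin, f, cT _, w, y, hf, isTam _, hT, hΩ', hto, han, hw0, hw, ?_⟩
    rw [← Int.not_odd_iff_even]
    exact fun h => hQ (hyQ.1 h)

theorem mul_spec {c n : ℕ} (hc : Squarefree c) (hn : Squarefree n) : mul c n = sfp (c * n) := by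
  have hc0 : 0 < c := Nat.pos_of_ne_zero hc.ne_zero
  have hn0 : 0 < n := Nat.pos_of_ne_zero hn.ne_zero
  have hg : 0 < Nat.gcd c n := Nat.gcd_pos_of_pos_left _ hc0
  obtain ⟨a, ha⟩ := Nat.gcd_dvd_left c n
  obtain ⟨b, hb⟩ := Nat.gcd_dvd_right c n
  have hcop : Nat.Coprime a b := by
    have h := Nat.coprime_div_gcd_div_gcd hg
    rwa [show c / Nat.gcd c n = a from Nat.div_eq_of_eq_mul_right hg ha,
      show n / Nat.gcd c n = b from Nat.div_eq_of_eq_mul_right hg hb] at h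
  have h1 : c * n = a * b * Nat.gcd c n ^ 2 :=
    calc c * n = (Nat.gcd c n * a) * (Nat.gcd c n * b) := congrArg₂ (· * ·) ha hb
      _ = a * b * Nat.gcd c n ^ 2 := by ring
  have ha' : Squarefree a := hc.squarefree_of_dvd ⟨_, by rw [mul_comm]; exact ha⟩
  have hb' : Squarefree b := hn.squarefree_of_dvd ⟨_, by rw [mul_comm]; exact hb⟩
  have hab : Squarefree (a * b) := (Nat.squarefree_mul hcop).2 ⟨ha', hb'⟩
  unfold mul
  rw [h1, sfp_mul_sq hab hg.ne', Nat.mul_div_cancel _ (pow_pos hg 2)]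

/-- the patterns in terms of the classes -/
theorem dens_of {P : ℕ → Prop} {m : ℕ} (h0 : 0 < m) (hm : P m) {T V : Finset ℕ} (hV : V ⊆ T)
    (hP : ∀ n, P n → ∀ c ∈ T, Twist (mul c n))
    (h : ∀ W : Finset ℕ, W ⊆ T → W.Nonempty →
      HasDensity P (fun n => ∀ c ∈ W, Qc (mul c n)) (eta ^ W.card)) :
    HasDensity P (Pattern T V) (eta ^ V.card * (1 - eta) ^ (T \ V).card) := by
  have h1 := pattern (P := P) h0 hm (R := fun c n => Qc (mul c n)) (T := T) h V hV
  refine Pool.Agent.N856.JL.Av.dens_congr (fun _ => Iff.rfl) (fun n hn => ?_) h1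
  constructor
  · intro g c hc
    obtain ⟨k1, k2, k3⟩ := one (hP n hn c hc)
    exact ⟨k1.trans (g c hc), fun h => k2 ((g c hc).2 h), fun h => k3 fun h' => h ((g c hc).1 h')⟩
  · intro g c hc
    exact (one (hP n hn c hc)).1.symm.trans (g c hc).1

/-- the residues of the product -/
theorem mul_mod {c n : ℕ} (hc : Squarefree c) (hn : Squarefree n)     (h2' : c % 2 = 1) (h3 : c % 3 ≠ 0 ∨ n % 3 ≠ 0) (h5 : c % 5 ≠ 0 ∨ n % 5 ≠ 0) :
    ∃ s : ℕ, s % 2 = 1 ∧ s % 3 ≠ 0 ∧ s % 5 ≠ 0 ∧ mul c n * s ^ 2 = c * n := by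
  have hc0 : 0 < c := Nat.pos_of_ne_zero hc.ne_zero
  have hn0 : 0 < n := Nat.pos_of_ne_zero hn.ne_zero
  refine ⟨Nat.gcd c n, ?_, ?_, ?_, ?_⟩
  · obtain ⟨a, ha⟩ := Nat.gcd_dvd_left c n
    by_contra hh
    have h6 : 2 ∣ Nat.gcd c n := Nat.dvd_of_mod_eq_zero (by omega)
    have h7 : 2 ∣ c := h6.trans (Nat.gcd_dvd_left c n)
    omega
  · intro hh
    have h6 : 3 ∣ Nat.gcd c n := Nat.dvd_of_mod_eq_zero hh
    have h7 : 3 ∣ c := h6.trans (Nat.gcd_dvd_left c n)
    have h8 : 3 ∣ n := h6.trans (Nat.gcd_dvd_right c n)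
    omega
  · intro hh
    have h6 : 5 ∣ Nat.gcd c n := Nat.dvd_of_mod_eq_zero hh
    have h7 : 5 ∣ c := h6.trans (Nat.gcd_dvd_left c n)
    have h8 : 5 ∣ n := h6.trans (Nat.gcd_dvd_right c n)
    omega
  · unfold mul
    refine Nat.div_mul_cancel ?_
    rw [pow_two]
    exact Nat.mul_dvd_mul (Nat.gcd_dvd_left c n) (Nat.gcd_dvd_right c n)

lemma sq4 {s : ℕ} (h : s % 2 = 1) : s ^ 2 % 4 = 1 := by
  rw [Nat.pow_mod]
  have a1 : s % 4 < 4 := Nat.mod_lt _ (by norm_num)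
  have a2 : s % 4 % 2 = 1 := by omega
  generalize s % 4 = x at *
  interval_cases x <;> simp_all

lemma sq3 {s : ℕ} (h : s % 3 ≠ 0) : s ^ 2 % 3 = 1 := by
  rw [Nat.pow_mod]
  have a1 : s % 3 < 3 := Nat.mod_lt _ (by norm_num)
  generalize s % 3 = x at *
  interval_cases x <;> simp_all

lemma sq5 {s : ℕ} (h : s % 5 ≠ 0) : s ^ 2 % 5 = 1 ∨ s ^ 2 % 5 = 4 := by
  rw [Nat.pow_mod]
  have a1 : s % 5 < 5 := Nat.mod_lt _ (by norm_num)
  generalize s % 5 = x at *
  interval_cases x <;> simp_all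

theorem twist_core {c n x : ℕ} (hc : c % 4 = 1 ∧ c % 3 = 1 ∧ (c % 5 = 1 ∨ c % 5 = 4))
    (hn : n % 4 = 3 ∧ n % 3 ≠ 1 ∧ (n % 5 = 0 ∨ n % 5 = 2 ∨ n % 5 = 3)) (hx : Squarefree x)
    {s : ℕ} (s2 : s % 2 = 1) (s3 : s % 3 ≠ 0) (s5 : s % 5 ≠ 0) (h : x * s ^ 2 = c * n) :
    Twist x := by
  have h4 : x * s ^ 2 % 4 = c * n % 4 := by rw [h]
  have h3 : x * s ^ 2 % 3 = c * n % 3 := by rw [h]
  have h5 : x * s ^ 2 % 5 = c * n % 5 := by rw [h]
  rw [Nat.mul_mod, sq4 s2, Nat.mul_mod c, hc.1, hn.1] at h4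
  rw [Nat.mul_mod, sq3 s3, Nat.mul_mod c, hc.2.1] at h3
  rw [Nat.mul_mod, Nat.mul_mod c] at h5
  have t5 := sq5 s5
  refine ⟨hx, by omega, ?_, ?_⟩
  · have := hn.2.1
    omega
  · rcases t5 with t5 | t5 <;> rcases hc.2.2 with c5 | c5 <;> rcases hn.2.2 with n5 | n5 | n5 <;>
      rw [t5, c5, n5] at h5 <;> omega

theorem twist_mul {c n : ℕ} (hc : Disc c) (hn : Twist n) : Twist (mul c n) := by
  obtain ⟨s, s2, s3, s5, h⟩ := mul_mod hc.1 hn.1 (by have := hc.2.1; omega)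
    (Or.inl (by have := hc.2.2.1; omega)) (Or.inl (by have := hc.2.2.2; omega))
  refine twist_core hc.2 hn.2 ?_ s2 s3 s5 h
  rw [mul_spec hc.1 hn.1]
  exact sfp_sqf _

theorem twist_mul' {c n : ℕ} (hc : Twist c) (hn : Disc n) : Twist (mul c n) := by
  obtain ⟨s, s2, s3, s5, h⟩ := mul_mod hc.1 hn.1 (by have := hc.2.1; omega)
    (Or.inr (by have := hn.2.2.1; omega)) (Or.inr (by have := hn.2.2.2; omega))
  refine twist_core hn.2 hc.2 ?_ s2 s3 s5 (h.trans (mul_comm c n))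
  rw [mul_spec hc.1 hn.1]
  exact sfp_sqf _

theorem law_n {W : Finset ℕ} (hW : W.Nonempty) (hc : ∀ c ∈ W, Disc c) :
    HasDensity Twist (fun n => ∀ c ∈ W, Qc (mul c n)) (eta ^ W.card) := by
  refine Pool.Agent.N856.JL.Av.dens_congr (fun n => Iff.rfl) (fun n hn => ?_)
    (Pool.Agent.N856.JT.law_TwO hW hc)
  refine forall_congr' fun c => forall_congr' fun hcW => ?_
  rw [mul_spec (hc c hcW).1 hn.1]

theorem law_D {W : Finset ℕ} (hW : W.Nonempty) (hc : ∀ c ∈ W, Twist c) :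
    HasDensity Disc (fun n => ∀ c ∈ W, Qc (mul c n)) (eta ^ W.card) := by
  refine Pool.Agent.N856.JL.Av.dens_congr (fun n => Iff.rfl) (fun n hn => ?_)
    (Pool.Agent.N856.JT.law_DiO hW hc)
  refine forall_congr' fun c => forall_congr' fun hcW => ?_
  rw [mul_spec (hc c hcW).1 hn.1]

lemma twist_23 : Twist 23 :=
  ⟨(by norm_num : Nat.Prime 23).prime.squarefree, rfl, by norm_num, by norm_num⟩
lemma disc_1 : Disc 1 := ⟨squarefree_one, rfl, rfl, Or.inl rfl⟩

/-- **Main theorem.** -/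
theorem main {T V : Finset ℕ} (hV : V ⊆ T) :
    ((∀ c ∈ T, Twist c) → HasDensity Disc (Pattern T V) (eta ^ V.card * (1 - eta) ^ (T \ V).card)) ∧
    ((∀ c ∈ T, Disc c) → HasDensity Twist (Pattern T V) (eta ^ V.card * (1 - eta) ^ (T \ V).card)) :=
  ⟨fun h => dens_of one_pos disc_1 hV (fun _ hn c hc => twist_mul' (h c hc) hn)
      fun _ hW hne => law_D hne fun c hc => h c (hW hc),
    fun h => dens_of (by norm_num) twist_23 hV (fun _ hn c hc => twist_mul (h c hc) hn)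
      fun _ hW hne => law_n hne fun c hc => h c (hW hc)⟩

end proof

end Pool.Agent.N856.JT.Two
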